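import Mathlib

/-! The rational rank of a group. -/

set_option autoImplicit false

namespace Pool.Agent.MP_3ce0a0_al.Q2T3

open Module

/-- The homomorphisms to the rationals. -/
abbrev Hm (H : Type) [Group H] : Type := Additive H →+ ℚ

/-- The dimension of the space of homomorphisms to the rationals. -/
noncomputable def rk (H : Type) [Group H] : ℕ := finrank ℚ (Hm H)

/-- The space of homomorphisms to the rationals has finite dimension. -/
def FinRk (H : Type) [Group H] : Prop := Module.Finite ℚ (Hm H)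

variable {H K : Type} [Group H] [Group K]

/-- An additive function as a homomorphism. -/
def mkHm (φ : H → ℚ) (h : ∀ a b, φ (a * b) = φ a + φ b) : Hm H :=
  AddMonoidHom.mk' (fun a => φ a.toMul) fun a b => h _ _

@[simp] theorem mkHm_apply (φ : H → ℚ) (h : ∀ a b, φ (a * b) = φ a + φ b) (a : H) :
    mkHm φ h (Additive.ofMul a) = φ a := rfl

theorem Hm.mul (φ : Hm H) (a b : H) :
    φ (Additive.ofMul (a * b)) = φ (Additive.ofMul a) + φ (Additive.ofMul b) := by
  rw [ofMul_mul, map_add]

theorem Hm.one (φ : Hm H) : φ (Additive.ofMul 1) = 0 := by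
  rw [ofMul_one, map_zero]

theorem Hm.inv (φ : Hm H) (a : H) : φ (Additive.ofMul a⁻¹) = -φ (Additive.ofMul a) := by
  rw [ofMul_inv, map_neg]

theorem Hm.conj (φ : Hm H) (g a : H) :
    φ (Additive.ofMul (g * a * g⁻¹)) = φ (Additive.ofMul a) := by
  rw [φ.mul, φ.mul, φ.inv]
  ring

theorem Hm.ext' {φ ψ : Hm H} (h : ∀ a : H, φ (Additive.ofMul a) = ψ (Additive.ofMul a)) : φ = ψ :=
  AddMonoidHom.ext fun a => h a.toMul

/-- Composition with a homomorphism. -/
def Hm.comap (f : H →* K) : Hm K →ₗ[ℚ] Hm H where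
  toFun φ := mkHm (fun a => φ (Additive.ofMul (f a))) fun a b => by rw [map_mul, φ.mul]
  map_add' _ _ := rfl
  map_smul' _ _ := rfl

@[simp] theorem Hm.comap_apply (f : H →* K) (φ : Hm K) (a : H) :
    Hm.comap f φ (Additive.ofMul a) = φ (Additive.ofMul (f a)) := rfl

theorem Hm.comap_inj (f : H →* K) (hf : Function.Surjective f) :
    Function.Injective (Hm.comap f) := fun φ ψ h => Hm.ext' fun b => by
  obtain ⟨a, rfl⟩ := hf b
  rw [← Hm.comap_apply, h, Hm.comap_apply]

theorem FinRk.of_surj (f : H →* K) (hf : Function.Surjective f) (h : FinRk H) :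
    FinRk K ∧ rk K ≤ rk H := by
  have : Module.Finite ℚ (Hm H) := h
  exact ⟨Module.Finite.of_injective _ (Hm.comap_inj f hf),
    LinearMap.finrank_le_finrank_of_injective (Hm.comap_inj f hf)⟩

/-- Isomorphic groups. -/
def Hm.congr (e : H ≃* K) : Hm K ≃ₗ[ℚ] Hm H :=
  LinearEquiv.ofLinearMap (Hm.comap e.toMonoidHom) (Hm.comap e.symm.toMonoidHom)
    (LinearMap.ext fun φ => Hm.ext' fun a => by simp)
    (LinearMap.ext fun φ => Hm.ext' fun a => by simp)

theorem rk_congr (e : H ≃* K) : rk H = rk K := (Hm.congr e).finrank_eq.symm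

theorem FinRk.congr (e : H ≃* K) (h : FinRk H) : FinRk K :=
  (FinRk.of_surj e.toMonoidHom e.surjective h).1

theorem lift_basis {ι Q : Type} [Group Q] (b : FreeGroupBasis ι H) (c : ι → Q) (i : ι) :
    b.lift c (b i) = c i := by
  simp [FreeGroupBasis.lift]

/-- Values on a basis. -/
noncomputable def Hm.basis {ι : Type} (b : FreeGroupBasis ι H) : Hm H ≃ₗ[ℚ] (ι → ℚ) where
  toFun φ i := φ (Additive.ofMul (b i))
  map_add' _ _ := rfl
  map_smul' _ _ := rfl
  invFun c := mkHm (fun a => (b.lift (fun i => Multiplicative.ofAdd (c i)) a).toAdd)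
    fun x y => by rw [map_mul, toAdd_mul]
  left_inv φ := Hm.ext' fun a => by
    have h : b.lift (fun i => Multiplicative.ofAdd (φ (Additive.ofMul (b i)))) =
        MonoidHom.mk' (fun a => Multiplicative.ofAdd (φ (Additive.ofMul a)))
          fun x y => by rw [φ.mul, ofAdd_add] :=
      b.ext_hom _ _ fun i => by simp [FreeGroupBasis.lift]
    simp only [mkHm_apply, h, MonoidHom.mk'_apply, toAdd_ofAdd]
  right_inv c := funext fun i => by simp [FreeGroupBasis.lift]

theorem finite_of_basis {ι : Type} (b : FreeGroupBasis ι H) (h : FinRk H) : Finite ι := by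
  have : Module.Finite ℚ (Hm H) := h
  have : Module.Finite ℚ (ι → ℚ) := Module.Finite.equiv (Hm.basis b)
  classical
  exact (Pi.linearIndependent_single_one ι ℚ).finite

theorem rk_basis {ι : Type} [Finite ι] (b : FreeGroupBasis ι H) :
    FinRk H ∧ rk H = Nat.card ι := by
  have := Fintype.ofFinite ι
  exact ⟨Module.Finite.equiv (Hm.basis b).symm, by
    rw [rk, (Hm.basis b).finrank_eq, finrank_fintype_fun_eq_card, Nat.card_eq_fintype_card]⟩

theorem rk_free (ι : Type) [Finite ι] : FinRk (FreeGroup ι) ∧ rk (FreeGroup ι) = Nat.card ι :=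
  rk_basis (FreeGroupBasis.ofFreeGroup ι)

theorem rk_fin (n : ℕ) : rk (FreeGroup (Fin n)) = n := by
  rw [(rk_free (Fin n)).2, Nat.card_eq_fintype_card, Fintype.card_fin]

/-- A group generated by `s` has rank at most the number of elements of `s`. -/
theorem rk_le_card (s : Finset H) (hs : Subgroup.closure (s : Set H) = ⊤) :
    FinRk H ∧ rk H ≤ s.card := by
  have h := FinRk.of_surj (FreeGroup.lift (fun x : s => (x : H))) (by
    rw [← MonoidHom.range_eq_top, FreeGroup.range_lift_eq_closure, Subtype.range_coe_subtype]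
    exact hs) (rk_free s).1
  rw [(rk_free s).2, Nat.card_eq_fintype_card, Fintype.card_coe] at h
  exact h

theorem FinRk.of_fg (h : Group.FG H) : FinRk H := by
  obtain ⟨s, hs⟩ := h.out
  exact (rk_le_card s hs).1

/-- A free group of finite rational rank has a basis with that many elements. -/
theorem FinRk.basis [IsFreeGroup H] (h : FinRk H) : Nonempty (FreeGroupBasis (Fin (rk H)) H) := by
  have b := IsFreeGroup.basis H
  have := finite_of_basis b h
  rw [(rk_basis b).2]
  exact ⟨b.reindex (Finite.equivFin _)⟩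

theorem FinRk.equiv [IsFreeGroup H] (h : FinRk H) : Nonempty (H ≃* FreeGroup (Fin (rk H))) :=
  h.basis.map fun b => b.repr

theorem FinRk.fg [IsFreeGroup H] (h : FinRk H) : Group.FG H := by
  obtain ⟨e⟩ := h.equiv
  exact Group.fg_of_surjective (f := e.symm.toMonoidHom) e.symm.surjective

theorem rk_of_subsingleton [Subsingleton H] : FinRk H ∧ rk H = 0 := by
  have h := rk_le_card (∅ : Finset H) (Subsingleton.elim _ _)
  exact ⟨h.1, Nat.le_zero.1 h.2⟩

theorem rk_bot (S : Subgroup H) (h : S = ⊥) : FinRk S ∧ rk S = 0 := by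
  subst h
  exact rk_of_subsingleton

/-- A non-trivial free group has a non-zero homomorphism to the rationals. -/
theorem exists_hm_ne [IsFreeGroup H] [Nontrivial H] : ∃ φ : Hm H, φ ≠ 0 := by
  have b := IsFreeGroup.basis H
  by_cases h : Nonempty (IsFreeGroup.Generators H)
  · obtain ⟨i⟩ := h
    refine ⟨(Hm.basis b).symm fun _ => 1, fun h0 => ?_⟩
    have h1 := congrFun (congrArg (Hm.basis b) h0) i
    simp at h1
  · have := not_nonempty_iff.1 h
    have : Subsingleton H := b.repr.toEquiv.subsingleton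
    exact (false_of_nontrivial_of_subsingleton H).elim

theorem FinRk.pos [IsFreeGroup H] [Nontrivial H] (h : FinRk H) : 1 ≤ rk H := by
  have : Module.Finite ℚ (Hm H) := h
  obtain ⟨φ, hφ⟩ := exists_hm_ne (H := H)
  have : Nontrivial (Hm H) := ⟨φ, 0, hφ⟩
  exact finrank_pos

theorem FinRk.eq_zero [IsFreeGroup H] (h : FinRk H) : rk H = 0 ↔ ∀ a : H, a = 1 := by
  refine ⟨fun h0 a => ?_, fun h1 => ?_⟩
  · by_contra ha
    have : Nontrivial H := ⟨a, 1, ha⟩
    have := h.pos
    omega
  · have : Subsingleton H := ⟨fun a b => (h1 a).trans (h1 b).symm⟩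
    exact rk_of_subsingleton.2

theorem rk_cyclic (c : H) (hc : ∀ a : H, a ∈ Subgroup.zpowers c) : FinRk H ∧ rk H ≤ 1 := by
  have h := rk_le_card ({c} : Finset H) (by
    rw [Finset.coe_singleton, ← Subgroup.zpowers_eq_closure, eq_top_iff]
    exact fun a _ => hc a)
  rwa [Finset.card_singleton] at h

theorem rk_zpowers (c : H) : FinRk (Subgroup.zpowers c) ∧ rk (Subgroup.zpowers c) ≤ 1 :=
  rk_cyclic ⟨c, Subgroup.mem_zpowers c⟩ fun ⟨_, k, hk⟩ => ⟨k, Subtype.ext hk⟩

/-- A commutative free group is cyclic. -/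
theorem cyclic_of_comm [IsFreeGroup H] (h : ∀ a b : H, a * b = b * a) :
    ∃ c : H, ∀ a, a ∈ Subgroup.zpowers c := by
  classical
  have b := IsFreeGroup.basis H
  have h1 : ∀ i j : IsFreeGroup.Generators H, i = j := fun i j => by
    by_contra hij
    have h2 := congrArg (b.lift fun k =>
      if k = i then (Equiv.swap 0 1 : Equiv.Perm (Fin 3)) else Equiv.swap 1 2) (h (b i) (b j))
    simp only [map_mul, lift_basis, if_true, if_neg (Ne.symm hij)] at h2
    revert h2
    decide
  have h3 : ∀ c : H, (∀ i, b i = c) → ∀ a, a ∈ Subgroup.zpowers c := fun c hc a => by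
    obtain ⟨w, rfl⟩ := b.repr.symm.surjective a
    induction w using FreeGroup.induction_on with
    | C1 => rw [map_one]; exact one_mem _
    | of i => exact (show b i ∈ _ from hc i ▸ Subgroup.mem_zpowers _)
    | inv_of i hi => rw [map_inv]; exact inv_mem hi
    | mul x y hx hy => rw [map_mul]; exact mul_mem hx hy
  by_cases hn : Nonempty (IsFreeGroup.Generators H)
  · obtain ⟨i⟩ := hn
    exact ⟨b i, h3 _ fun j => by rw [h1 i j]⟩
  · exact ⟨1, h3 _ fun j => absurd ⟨j⟩ hn⟩

theorem rk_comm [IsFreeGroup H] (h : ∀ a b : H, a * b = b * a) : FinRk H ∧ rk H ≤ 1 := by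
  obtain ⟨c, hc⟩ := cyclic_of_comm h
  exact rk_cyclic c hc

theorem FinRk.comm [IsFreeGroup H] (h : FinRk H) (h1 : rk H ≤ 1) (a b : H) : a * b = b * a := by
  obtain ⟨e⟩ := h.equiv
  have : Subsingleton (Fin (rk H)) := Fin.subsingleton_iff_le_one.2 h1
  have h2 : ∀ x y : FreeGroup (Fin (rk H)), Commute x y := fun x y => by
    induction x using FreeGroup.induction_on with
    | C1 => exact Commute.one_left _
    | of i =>
      induction y using FreeGroup.induction_on with
      | C1 => exact Commute.one_right _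
      | of j => rw [Subsingleton.elim i j]
      | inv_of j hj => exact hj.inv_right
      | mul y z hy hz => exact hy.mul_right hz
    | inv_of i hi => exact hi.inv_left
    | mul x z hx hz => exact hx.mul_left hz
  apply e.injective
  rw [map_mul, map_mul, (h2 _ _).eq]

theorem FinRk.two_le [IsFreeGroup H] (h : FinRk H) {a b : H} (hab : a * b ≠ b * a) :
    2 ≤ rk H := by
  by_contra h1
  exact hab (h.comm (by omega) a b)

end Pool.Agent.MP_3ce0a0_al.Q2T3
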