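import Pool.Agent.MP_3ce0a0_al.Q2T3.C
import Pool.Agent.MP_3ce0a0_al.Q2T1.Defs

/-! Simplicial trees and families of arcs as oriented forests. -/

set_option autoImplicit false

namespace Pool.Agent.MP_3ce0a0_al.Q2T3

open MulAction Q2T1

section Walk

variable {X Q : Type} [Group Q] {Γ : SimpleGraph X}

/-- The holonomy along a walk. -/
def hol (ω : X → X → Q) : ∀ {x y : X}, Γ.Walk x y → Q
  | _, _, .nil => 1
  | x, _, .cons (v := z) _ p => hol ω p * ω x z

theorem hol_append (ω : X → X → Q) {x y z : X} (p : Γ.Walk x y) (q : Γ.Walk y z) :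
    hol ω (p.append q) = hol ω q * hol ω p := by
  induction p with
  | nil => simp [hol]
  | cons h p ih => simp only [SimpleGraph.Walk.cons_append, hol, ih, mul_assoc]

theorem hol_path (hΓ : Γ.IsAcyclic) (ω : X → X → Q) (hω : ∀ x y, Γ.Adj x y → ω y x * ω x y = 1)
    {x y : X} (p : Γ.Walk x y) : ∀ q : Γ.Walk x y, q.IsPath → hol ω p = hol ω q := by
  classical
  induction p with
  | nil => intro q hq; rw [(SimpleGraph.Walk.isPath_iff_nil.1 hq).eq_nil]
  | @cons x z y h p ih =>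
    intro q hq
    by_cases hz : z ∈ q.support
    · have h1 : q.takeUntil z hz = .cons h .nil := congrArg Subtype.val
        ((hΓ.subsingleton_path _ _).elim ⟨q.takeUntil z hz, hq.takeUntil hz⟩
          (SimpleGraph.Path.singleton h))
      rw [← q.take_spec hz, hol_append, h1, ← ih _ (hq.dropUntil hz)]
      simp only [hol, one_mul]
    · have h1 := ih (.cons h.symm q) (hq.cons hz)
      simp only [hol] at h1 ⊢
      rw [h1, mul_assoc, hω x z h, mul_one]

theorem exists_pot (hΓ : Γ.IsAcyclic) (ω : X → X → Q)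
    (hω : ∀ x y, Γ.Adj x y → ω y x * ω x y = 1) :
    ∃ f : X → Q, ∀ x y, Γ.Adj x y → f y = ω x y * f x := by
  classical
  have h1 : ∀ x, (Γ.Reachable (Γ.connectedComponentMk x).out x) := fun x =>
    SimpleGraph.ConnectedComponent.exact (Quot.out_eq _)
  refine ⟨fun y => hol ω (h1 y).some, fun x y h => ?_⟩
  have h2 : ∀ a b (e : a = b) (p : Γ.Walk a x) (q : Γ.Walk b y), hol ω q = ω x y * hol ω p := by
    intro a b e p q
    subst e
    rw [hol_path hΓ ω hω q _ q.bypass_isPath,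
      ← hol_path hΓ ω hω (p.append (.cons h .nil)) _ q.bypass_isPath, hol_append]
    simp only [hol, one_mul]
  exact h2 _ _ (by rw [SimpleGraph.ConnectedComponent.connectedComponentMk_eq_of_adj h]) _ _

end Walk

/-- A family of arcs in a tree-space in which consecutive arcs have different directions. -/
structure Arcs {X : Type} [MetricSpace X] (A : X → X → Prop) : Prop where
  symm : ∀ x y, A x y → A y x
  ne : ∀ x y, A x y → x ≠ y
  btw : ∀ x y z, A x y → A y z → x ≠ z → Btw x y z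

section Metric

variable {X : Type} [MetricSpace X]

theorem btw_ext [IsTree X] {a b c d : X} (h1 : Btw a b c) (h2 : Btw b c d) (h : b ≠ c) :
    Btw a b d := by
  have h3 := IsTree.four a c b d
  have h4 := dist_pos.2 h
  have h5 := dist_triangle a b d
  rw [dist_comm c b] at h3
  unfold Q2T1.Btw at *
  rcases le_max_iff.1 h3 with h3 | h3 <;> linarith

theorem Arcs.pot [IsTree X] {A : X → X → Prop} (hA : Arcs A) {Q : Type} [Group Q]
    (ω : X → X → Q) (hω : ∀ x y, A x y → ω y x * ω x y = 1) :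
    ∃ f : X → Q, ∀ x y, A x y → f y = ω x y * f x := by
  let Γ : SimpleGraph X := ⟨A, ⟨hA.symm⟩, ⟨fun x h => hA.ne x x h rfl⟩⟩
  refine exists_pot (Γ := Γ) ?_ ω hω
  have h1 : ∀ {y z : X} (p : Γ.Walk y z) (x : X) (h : Γ.Adj x y), (p.cons h).IsTrail →
      Btw x y z := by
    intro y z p
    induction p with
    | nil => exact fun x _ _ => by simp [Q2T1.Btw]
    | @cons y w z h' p ih =>
      intro x h ht
      refine btw_ext (hA.btw x y w h h' fun e => ?_) (ih y h' ht.of_cons) h'.ne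
      subst e
      have := ht.edges_nodup
      simp [Sym2.eq_swap] at this
  intro v c hc
  cases c with
  | nil => exact hc.ne_nil rfl
  | cons h p =>
    have h2 := h1 p v h hc.isTrail
    have h3 := dist_pos.2 h.ne
    rw [Q2T1.Btw, dist_self, dist_comm _ v] at h2
    linarith

theorem arcs_simp [IsSimp X] : Arcs fun x y : X => dist x y = 1 := by
  refine ⟨fun x y h => by rw [dist_comm, h], fun x y h e => by simp [e] at h,
    fun x y z h1 h2 h => ?_⟩
  obtain ⟨m, m1, m2, m3⟩ := IsTree.ex_med x y z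
  obtain ⟨a, ha⟩ := IsSimp.int x m
  obtain ⟨b, hb⟩ := IsSimp.int y m
  obtain ⟨c, hc⟩ := IsSimp.int m z
  have h4 := dist_pos.2 h
  unfold Q2T1.Btw at *
  rw [dist_comm m y] at m1
  rw [← m3] at h4 ⊢
  rw [ha, hb, h1] at m1
  rw [hb, hc, h2] at m2
  rw [ha, hc] at h4
  rw [h1, h2, ha, hc]
  norm_cast at *
  omega

theorem conn_simp [IsSimp X] (S : Set X) (hS : ∀ x y, dist x y = 1 → x ∈ S → y ∈ S) (u v : X)
    (hu : u ∈ S) : v ∈ S := by
  obtain ⟨n, hn⟩ := IsSimp.int u v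
  induction n generalizing u with
  | zero => rwa [← dist_eq_zero.1 (hn.trans Nat.cast_zero)]
  | succ n ih =>
    obtain ⟨z, h1, h2⟩ := IsSimp.geo u v fun e => by
      rw [e, dist_self] at hn
      exact absurd hn.symm (by positivity)
    refine ih z (hS u z h1 hu) ?_
    rw [Q2T1.Btw, h1, hn] at h2
    push_cast at h2
    linarith

end Metric

/-- An invariant orientation of the relation `A`. -/
structure IsOr {U X : Type} [Group U] [MulAction U X] (A : X → X → Prop)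
    (O : SubMulAction U (X × X)) : Prop where
  sub : ∀ p ∈ O, A p.1 p.2
  xor : ∀ x y, A x y → ((x, y) ∈ O ↔ (y, x) ∉ O)

theorem exists_or {U X : Type} [Group U] [MulAction U X] (A : X → X → Prop)
    (hs : ∀ x y, A x y → A y x) (hA : ∀ (g : U) x y, A x y → A (g • x) (g • y))
    (hN : ∀ (g : U) x y, A x y → g • x = y → g • y ≠ x) :
    ∃ O : SubMulAction U (X × X), IsOr A O := by
  obtain ⟨_, -⟩ := exists_wellFoundedLT (Orb U (X × X))
  refine ⟨⟨{p | A p.1 p.2 ∧ (Quotient.mk'' p : Orb U (X × X)) < Quotient.mk'' p.swap},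
    fun g p hp => ⟨hA g _ _ hp.1, ?_⟩⟩, fun p hp => hp.1, fun x y h => ?_⟩
  · have e : (g • p).swap = g • p.swap := rfl
    rw [e, orb_smul, orb_smul]
    exact hp.2
  · have hne : (Quotient.mk'' (x, y) : Orb U (X × X)) ≠ Quotient.mk'' (y, x) := fun e => by
      obtain ⟨g, hg⟩ := orb_eq.1 e.symm
      exact hN g x y h (congrArg Prod.fst hg) (congrArg Prod.snd hg)
    exact ⟨fun h1 h2 => lt_asymm h1.2 h2.2, fun h1 => ⟨h, lt_of_le_of_ne
      (not_lt.1 fun h2 => h1 ⟨hs x y h, h2⟩) hne⟩⟩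

section Or

variable {U X : Type} [Group U] [MulAction U X] {A : X → X → Prop} {O : SubMulAction U (X × X)}

/-- The origin. -/
abbrev oo (O : SubMulAction U (X × X)) (p : O) : X := p.1.1

/-- The terminus. -/
abbrev tt (O : SubMulAction U (X × X)) (p : O) : X := p.1.2

theorem gr_or (O : SubMulAction U (X × X)) : Gr U (oo O) (tt O) := ⟨fun _ _ => rfl, fun _ _ => rfl⟩

theorem fix_or {g : U} {p : O} : g • p = p ↔ g • oo O p = oo O p ∧ g • tt O p = tt O p :=
  Subtype.ext_iff.trans Prod.ext_iff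

theorem IsOr.cases (h : IsOr A O) {x y : X} (hxy : A x y) :
    (∃ p : O, oo O p = x ∧ tt O p = y) ∨ ∃ p : O, oo O p = y ∧ tt O p = x := by
  by_cases h1 : (y, x) ∈ O
  · exact Or.inr ⟨⟨_, h1⟩, rfl, rfl⟩
  · exact Or.inl ⟨⟨_, (h.xor x y hxy).2 h1⟩, rfl, rfl⟩

theorem IsOr.forest [MetricSpace X] [IsTree X] (h : IsOr A O) (hA : Arcs A) :
    Forest (oo O) (tt O) := by
  classical
  intro Q _ ω
  obtain ⟨f, hf⟩ := hA.pot (fun x y => if h1 : (x, y) ∈ O then ω ⟨_, h1⟩ else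
      if h2 : (y, x) ∈ O then (ω ⟨_, h2⟩)⁻¹ else 1) fun x y hxy => by
    by_cases h1 : (y, x) ∈ O
    · have h2 : (x, y) ∉ O := fun h2 => (h.xor x y hxy).1 h2 h1
      simp [h1, h2]
    · have h2 : (x, y) ∈ O := (h.xor x y hxy).2 h1
      simp [h1, h2]
  refine ⟨f, fun e => ?_⟩
  rw [hf _ _ (h.sub _ e.2), dif_pos e.2]

theorem IsOr.conn [MetricSpace X] [IsSimp X] [Nonempty X]
    (h : IsOr (fun x y : X => dist x y = 1) O) : Conn (oo O) (tt O) :=
  ⟨inferInstance, fun S hS => conn_simp S fun x y hxy hx => by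
    rcases h.cases hxy with ⟨p, rfl, rfl⟩ | ⟨p, rfl, rfl⟩
    · exact (hS p).1 hx
    · exact (hS p).2 hx⟩

end Or

/-- No inversions, for a group given as a type. -/
def NI (U X : Type) [Group U] [MetricSpace X] [MulAction U X] : Prop :=
  ∀ (g : U) (x : X), dist x (g • x) = 1 → g • g • x ≠ x

/-- Trivial edge groups. -/
def TE (U X : Type) [Group U] [MetricSpace X] [MulAction U X] : Prop :=
  ∀ (g : U) (x y : X), dist x y = 1 → g • x = x → g • y = y → g = 1

section Simp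

variable {U X : Type} [Group U] [MetricSpace X] [MulAction U X]

theorem ni_top (h : NoInv X (⊤ : Subgroup U)) : NI U X := fun g => h g (Subgroup.mem_top g)

theorem ni_sub {H : Subgroup U} (h : NoInv X H) : NI H X := fun g => h g.1 g.2

theorem NI.sub (h : NI U X) (H : Subgroup U) : NI H X := fun g => h g.1

theorem TE.sub (h : TE U X) (H : Subgroup U) : TE H X :=
  fun g x y h1 h2 h3 => Subtype.ext (h g.1 x y h1 h2 h3)

variable [IsSimp X] [Nonempty X] [IsIsometricSMul U X]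

omit [IsSimp X] [Nonempty X] in
theorem NI.or (hN : NI U X) :
    ∃ O : SubMulAction U (X × X), IsOr (fun x y : X => dist x y = 1) O :=
  exists_or _ (fun x y h => by rw [dist_comm, h]) (fun g x y h => by rw [dist_smul, h])
    fun g x y h e => by subst e; exact hN g x h

/-- (UP) -/
theorem s_up (hN : NI U X) {Q : Type} [Group Q] (R : Set X)
    (hR : ∀ r ∈ R, ∀ r' ∈ R, ∀ g : U, g • r = r' → r = r') (l : ∀ r : X, stabilizer U r →* Q)
    (hl : ∀ r ∈ R, ∀ (h : stabilizer U r) (y : X), dist r y = 1 → (h : U) • y = y → l r h = 1) :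
    ∃ φ : U →* Q, (∀ r ∈ R, ∃ q, ∀ h : stabilizer U r, φ h = q⁻¹ * l r h * q) ∧
      ∀ v, (∀ r ∈ R, ∀ g : U, g • r ≠ v) → ∀ h : U, h • v = v → φ h = 1 := by
  obtain ⟨O, hO⟩ := hN.or
  refine up (gr_or O) (hO.forest arcs_simp) hO.conn R hR l fun r hr h e he hv => ?_
  rcases hv with rfl | rfl
  · exact hl _ hr h _ (hO.sub _ e.2) (fix_or.1 he).2
  · exact hl _ hr h _ (by rw [dist_comm]; exact hO.sub _ e.2) (fix_or.1 he).1

/-- (UP) for one vertex. -/
theorem s_up1 (hN : NI U X) {Q : Type} [Group Q] (r : X) (l : stabilizer U r →* Q)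
    (hl : ∀ (h : stabilizer U r) (y : X), dist r y = 1 → (h : U) • y = y → l h = 1) :
    ∃ φ : U →* Q, (∀ h : stabilizer U r, φ h = l h) ∧
      ∀ v, (∀ g : U, g • r ≠ v) → ∀ h : U, h • v = v → φ h = 1 := by
  obtain ⟨O, hO⟩ := hN.or
  refine up1 (gr_or O) (hO.forest arcs_simp) hO.conn r l fun h e he hv => ?_
  rcases hv with rfl | rfl
  · exact hl h _ (hO.sub _ e.2) (fix_or.1 he).2
  · exact hl h _ (by rw [dist_comm]; exact hO.sub _ e.2) (fix_or.1 he).1

/-- The retraction onto a vertex group. -/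
theorem s_retr (hN : NI U X) (hT : TE U X) (r : X) :
    ∃ φ : U →* stabilizer U r, (∀ h : stabilizer U r, φ h = h) ∧
      ∀ v, (∀ g : U, g • r ≠ v) → ∀ h : U, h • v = v → φ h = 1 :=
  s_up1 hN r (MonoidHom.id _) fun h y h1 h2 => Subtype.ext (hT h r y h1 h.2 h2)

/-- The rank drops. -/
theorem s_drop [IsFreeGroup U] (hU : FinRk U) (hN : NI U X) (hT : TE U X) (r : X) :
    FinRk (stabilizer U r) ∧ rk (stabilizer U r) ≤ rk U ∧
      ((∃ g : U, g • r ≠ r) → rk (stabilizer U r) < rk U) := by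
  obtain ⟨φ, h, -⟩ := s_retr hN hT r
  obtain ⟨h1, h2, h3⟩ := rk_retract hU _ φ h
  exact ⟨h1, h2, fun ⟨g, hg⟩ => h3 fun h4 => hg (mem_stabilizer_iff.1 (h4 ▸ Subgroup.mem_top g))⟩

/-- (X1) -/
theorem s_x1 (hN : NI U X) {A : Type} [AddCommGroup A]
    (l : X → U → A) (hl : ∀ v g h, g • v = v → h • v = v → l v (g * h) = l v g + l v h)
    (heq : ∀ v g h, h • v = v → l (g • v) (g * h * g⁻¹) = l v h)
    (he : ∀ x y h, dist x y = 1 → h • x = x → h • y = y → l x h = l y h) :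
    ∃ φ : U → A, (∀ g h, φ (g * h) = φ g + φ h) ∧ ∀ v h, h • v = v → φ h = l v h := by
  obtain ⟨O, hO⟩ := hN.or
  exact x1 (gr_or O) (hO.forest arcs_simp) hO.conn l hl heq fun e h hh =>
    he _ _ h (hO.sub _ e.2) (fix_or.1 hh).1 (fix_or.1 hh).2

/-- (X4) periods of an invariant antisymmetric function on the edges. -/
theorem s_x4 (hN : NI U X) {A : Type} [AddCommGroup A] (ω : X → X → A)
    (hω : ∀ (g : U) x y, dist x y = 1 → ω (g • x) (g • y) = ω x y)
    (ha : ∀ x y, dist x y = 1 → ω y x = -ω x y) :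
    ∃ (φ : U → A) (f : X → A), (∀ g h, φ (g * h) = φ g + φ h) ∧
      (∀ x y, dist x y = 1 → f y - f x = ω x y) ∧ ∀ g v, φ g = f (g • v) - f v := by
  obtain ⟨O, hO⟩ := hN.or
  obtain ⟨φ, f, h1, h2, h3⟩ := x4 (gr_or O) (hO.forest arcs_simp) hO.conn
    (fun e => ω (oo O e) (tt O e)) fun g e => hω g _ _ (hO.sub _ e.2)
  refine ⟨φ, f, h1, fun x y h => ?_, h3⟩
  rcases hO.cases h with ⟨p, rfl, rfl⟩ | ⟨p, rfl, rfl⟩
  · exact h2 p
  · rw [ha _ _ (hO.sub _ p.2), ← h2 p, neg_sub]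

open Classical in
/-- (X4) the crossing number of the orbit of an oriented edge. -/
theorem s_cross (hN : NI U X) (x₀ y₀ : X) :
    ∃ (φ : U → ℤ) (f : X → ℤ), (∀ g h, φ (g * h) = φ g + φ h) ∧
      (∀ x y, dist x y = 1 → f y - f x = if ∃ g : U, g • x₀ = x ∧ g • y₀ = y then 1 else
        if ∃ g : U, g • x₀ = y ∧ g • y₀ = x then -1 else 0) ∧ ∀ g v, φ g = f (g • v) - f v := by
  have h1 : ∀ (g : U) x y, (∃ k : U, k • x₀ = g • x ∧ k • y₀ = g • y) ↔
      ∃ k : U, k • x₀ = x ∧ k • y₀ = y := fun g x y =>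
    ⟨fun ⟨k, a, b⟩ => ⟨g⁻¹ * k, by rw [mul_smul, a, inv_smul_smul],
      by rw [mul_smul, b, inv_smul_smul]⟩,
    fun ⟨k, a, b⟩ => ⟨g * k, by rw [mul_smul, a], by rw [mul_smul, b]⟩⟩
  refine s_x4 hN _ (fun g x y _ => by simp only [h1]) fun x y h => ?_
  split_ifs with a b b
  · obtain ⟨k, k1, k2⟩ := a
    obtain ⟨g, g1, g2⟩ := b
    have e1 : (k * g⁻¹) • x = y := by rw [← g1, mul_smul, inv_smul_smul, k1]
    have e2 : (k * g⁻¹) • y = x := by rw [← g2, mul_smul, inv_smul_smul, k2]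
    exact absurd (by rw [e1, e2]) (hN (k * g⁻¹) x (by rw [e1, h]))
  all_goals simp

/-- (X4) an edge with equivalent ends. -/
theorem s_x4e (hN : NI U X) (g₀ : U) (x₀ : X) (h₀ : dist x₀ (g₀ • x₀) = 1) :
    ∃ φ : U → ℤ, (∀ g h, φ (g * h) = φ g + φ h) ∧ φ g₀ = 1 ∧
      ∀ (g : U) (v : X), g • v = v → φ g = 0 := by
  obtain ⟨φ, f, h1, h2, h3⟩ := s_cross hN x₀ (g₀ • x₀)
  refine ⟨φ, h1, ?_, fun g v h => by rw [h3 g v, h, sub_self]⟩
  rw [h3 g₀ x₀, h2 _ _ h₀, if_pos ⟨1, one_smul _ _, one_smul _ _⟩]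

/-- (FF) -/
theorem s_ff (hN : NI U X) (hfree : ∀ (g : U) (v : X), g • v = v → g = 1) : IsFreeGroup U := by
  obtain ⟨O, hO⟩ := hN.or
  exact ff (gr_or O) (hO.forest arcs_simp) hO.conn hfree

end Simp

end Pool.Agent.MP_3ce0a0_al.Q2T3
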