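import Pool.Agent.MP_3ce0a0_al.Q2T3.A
import Pool.Agent.MP_3ce0a0_al.Q2T3.B

/-! Residual finiteness, the Hopf property, retractions onto vertex groups. -/

set_option autoImplicit false

namespace Pool.Agent.MP_3ce0a0_al.Q2T3

open MulAction

theorem rf_freeGroup {α : Type} (w : FreeGroup α) (hw : w ≠ 1) :
    ∃ (n : ℕ) (φ : FreeGroup α →* Equiv.Perm (Fin n)), φ w ≠ 1 := by
  classical
  obtain ⟨L, rfl⟩ := Quot.exists_rep w
  rw [FreeGroup.quot_mk_eq_mk] at hw ⊢
  let S : Finset (FreeGroup α) := (L.tails.map FreeGroup.mk).toFinset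
  have hS : ∀ L', L' <:+ L → FreeGroup.mk L' ∈ S := fun L' h =>
    List.mem_toFinset.2 (List.mem_map.2 ⟨L', (List.mem_tails _ _).2 h, rfl⟩)
  have h1 : ∀ a : α, ∃ σ : Equiv.Perm S, ∀ (u v : S), FreeGroup.of a * u.1 = v.1 → σ u = v := by
    intro a
    obtain ⟨σ, hσ⟩ := Equiv.Perm.exists_extending_pair
      (f := fun u : {u : S // FreeGroup.of a * u.1 ∈ S} => u.1)
      (g := fun u : {u : S // FreeGroup.of a * u.1 ∈ S} => (⟨_, u.2⟩ : S)) Subtype.val_injective
      fun u v h => Subtype.ext (Subtype.ext (mul_left_cancel (congrArg Subtype.val h)))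
    exact ⟨σ, fun u v h => (hσ ⟨u, h ▸ v.2⟩).trans (Subtype.ext h)⟩
  choose σ hσ using h1
  have h0 : (1 : FreeGroup α) ∈ S := hS [] List.nil_suffix
  have h2 : ∀ L' (h : L' <:+ L), FreeGroup.lift σ (FreeGroup.mk L') ⟨1, h0⟩ = ⟨_, hS L' h⟩ := by
    intro L'
    induction L' with
    | nil =>
      intro h
      conv_lhs => rw [← FreeGroup.one_eq_mk, map_one]
      rfl
    | cons x L' ih =>
      intro h
      have h3 := ih ((List.suffix_cons x L').trans h)
      obtain ⟨a, b⟩ := x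
      cases b with
      | true =>
        have e : FreeGroup.mk ((a, true) :: L') = FreeGroup.of a * FreeGroup.mk L' := rfl
        conv_lhs => rw [e]
        rw [map_mul, Equiv.Perm.mul_apply, h3, FreeGroup.lift_apply_of]
        exact hσ a _ _ e.symm
      | false =>
        have e : FreeGroup.mk ((a, false) :: L') = (FreeGroup.of a)⁻¹ * FreeGroup.mk L' := rfl
        conv_lhs => rw [e]
        rw [map_mul, Equiv.Perm.mul_apply, h3, map_inv, FreeGroup.lift_apply_of,
          Equiv.Perm.inv_eq_iff_eq]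
        exact (hσ a _ _ (by simp only [e, mul_inv_cancel_left])).symm
  refine ⟨S.card, (S.equivFin.permCongrHom).toMonoidHom.comp (FreeGroup.lift σ), fun h => hw ?_⟩
  have h4 : FreeGroup.lift σ (FreeGroup.mk L) = 1 :=
    (map_eq_one_iff _ (S.equivFin.permCongrHom).injective).1 h
  have h5 := h2 L List.suffix_rfl
  rw [h4] at h5
  exact (congrArg Subtype.val h5).symm

variable {H K : Type} [Group H] [Group K]

/-- Free groups are residually finite. -/
theorem rf_free [IsFreeGroup H] (w : H) (hw : w ≠ 1) :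
    ∃ (n : ℕ) (φ : H →* Equiv.Perm (Fin n)), φ w ≠ 1 := by
  have b := IsFreeGroup.basis H
  obtain ⟨n, φ, h⟩ := rf_freeGroup (b.repr w) fun h => hw ((map_eq_one_iff _ b.repr.injective).1 h)
  exact ⟨n, φ.comp b.repr.toMonoidHom, h⟩

theorem rf_free' [IsFreeGroup H] (w : H) (hw : w ≠ 1) :
    ∃ N : Subgroup H, N.Normal ∧ N.FiniteIndex ∧ w ∉ N := by
  obtain ⟨n, φ, h⟩ := rf_free w hw
  exact ⟨φ.ker, inferInstance, inferInstance, h⟩

/-- The Hopf property: a surjection between free groups of the same finite rank is injective. -/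
theorem hopf [IsFreeGroup H] [IsFreeGroup K] (hH : FinRk H) (f : H →* K)
    (hf : Function.Surjective f) (hr : rk H ≤ rk K) : Function.Injective f := by
  obtain ⟨hK, h1⟩ := hH.of_surj f hf
  obtain ⟨b⟩ := hH.basis
  obtain ⟨c⟩ := hK.basis
  have e : K ≃* H := c.repr.trans
    ((FreeGroup.freeGroupCongr (finCongr (le_antisymm h1 hr))).trans b.repr.symm)
  refine (injective_iff_map_eq_one f).2 fun w hw => ?_
  by_contra h
  obtain ⟨n, φ, hφ⟩ := rf_free w h
  have : Finite (H →* Equiv.Perm (Fin n)) := Finite.of_equiv _ b.lift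
  obtain ⟨ψ, hψ⟩ := Finite.surjective_of_injective
    (f := fun ψ : H →* Equiv.Perm (Fin n) => ψ.comp (e.toMonoidHom.comp f))
    (fun ψ ψ' h => (MonoidHom.cancel_right (e.surjective.comp hf)).1 h) φ
  apply hφ
  rw [← hψ]
  simp [hw]

/-- A proper retract of a free group of finite rank has smaller rank. -/
theorem rk_retract [IsFreeGroup H] (hH : FinRk H) (S : Subgroup H) (r : H →* S)
    (hr : ∀ s : S, r s = s) : FinRk S ∧ rk S ≤ rk H ∧ (S ≠ ⊤ → rk S < rk H) := by
  have hs : Function.Surjective r := fun s => ⟨s, hr s⟩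
  obtain ⟨h1, h2⟩ := hH.of_surj r hs
  refine ⟨h1, h2, fun h => lt_of_not_ge fun h3 => h (eq_top_iff.2 fun g _ => ?_)⟩
  have h4 := hopf hH r hs h3 (hr (r g))
  rw [← h4]
  exact (r g).2

variable {E : Type} [Group E] {V Ed : Type} [MulAction E V] [MulAction E Ed] {o t : Ed → V}

/-- The retraction onto a vertex group when the adjacent edge groups are trivial. -/
theorem retr (hG : Gr E o t) (hF : Forest o t) (hC : Conn o t) (r : V)
    (hl : ∀ (h : E) (e : Ed), h • e = e → o e = r ∨ t e = r → h = 1) :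
    ∃ φ : E →* stabilizer E r, (∀ h : stabilizer E r, φ h = h) ∧
      ∀ v, (∀ g : E, g • r ≠ v) → ∀ h : E, h • v = v → φ h = 1 :=
  up1 hG hF hC r (MonoidHom.id _) fun h e he hv => Subtype.ext (hl h e he hv)

theorem drop [IsFreeGroup E] (hE : FinRk E) (hG : Gr E o t) (hF : Forest o t) (hC : Conn o t)
    (r : V) (hl : ∀ (h : E) (e : Ed), h • e = e → o e = r ∨ t e = r → h = 1) :
    FinRk (stabilizer E r) ∧ rk (stabilizer E r) ≤ rk E ∧
      ((∃ g : E, g • r ≠ r) → rk (stabilizer E r) < rk E) := by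
  obtain ⟨φ, h, -⟩ := retr hG hF hC r hl
  obtain ⟨h1, h2, h3⟩ := rk_retract hE _ φ h
  exact ⟨h1, h2, fun ⟨g, hg⟩ => h3 fun h4 => hg (mem_stabilizer_iff.1 (h4 ▸ Subgroup.mem_top g))⟩

end Pool.Agent.MP_3ce0a0_al.Q2T3
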