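import Pool.Agent.MP_3ce0a0_al.Q2T3.D
import Pool.Agent.MP_3ce0a0_al.Q2T3.S
import Pool.Agent.MP_3ce0a0_al.Q2T7.Defs

/-! Rank drops for vertex groups; the forms used by the other blocks. -/

set_option autoImplicit false

namespace Pool.Agent.MP_3ce0a0_al.Q2T3

open MulAction Q2T1 Finset

section Count

variable {U : Type} [Group U] {V Ed : Type} [MulAction U V] [MulAction U Ed] {o t : Ed → V}

theorem bot_smul' {X : Type} [MulAction U X] (g : U) (x : X) :
    stabilizer U (g • x) = ⊥ ↔ stabilizer U x = ⊥ := by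
  rw [stabilizer_smul_eq_stabilizer_map_conj,
    Subgroup.map_eq_bot_iff_of_injective _ (MulAut.conj g).injective]

theorem rk_smul {X : Type} [MulAction U X] (g : U) (x : X) :
    rk (stabilizer U (g • x)) = rk (stabilizer U x) :=
  rk_congr (stabilizerEquivStabilizerOfOrbitRel (orbitRel_apply.2 (mem_orbit x g)))

theorem exists_reps (U X : Type) [Group U] [MulAction U X] [Finite (Orb U X)] :
    ∃ (ι : Type) (_ : Fintype ι) (a : ι → X), Meets U a ∧ Ineq U a ∧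
      Fintype.card ι = Nat.card (Orb U X) :=
  ⟨Orb U X, Fintype.ofFinite _, _, meets_out, ineq_out, Fintype.card_eq_nat_card⟩

/-- The end of a half-edge. -/
def en (o t : Ed → V) (p : Ed × Bool) : V := if p.2 then t p.1 else o p.1

theorem Gr.en_smul (hG : Gr U o t) (g : U) (e : Ed) (s : Bool) :
    en o t (g • e, s) = g • en o t (e, s) := by
  cases s
  · exact hG.o_smul g e
  · exact hG.t_smul g e

theorem Gr.bot_edge (hG : Gr U o t) {e : Ed} {s : Bool} (h : stabilizer U (en o t (e, s)) = ⊥) :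
    stabilizer U e = ⊥ := eq_bot_iff.2 fun g hg => by
  rw [← h, mem_stabilizer_iff, ← hG.en_smul, mem_stabilizer_iff.1 hg]

open Classical in
/-- There are at least as many trivial edges as trivial vertices. -/
theorem val_count (hG : Gr U o t) (hC : Conn o t) {ι κ : Type} [Fintype ι] [Fintype κ]
    {a : ι → V} {b : κ → Ed} (a1 : Meets U a) (a2 : Ineq U a) (b1 : Meets U b)
    (hv : ∀ v : V, stabilizer U v = ⊥ → ∃ p q : Ed × Bool, p ≠ q ∧ en o t p = v ∧ en o t q = v) :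
    #{i | stabilizer U (a i) = ⊥} ≤ #{k | stabilizer U (b k) = ⊥} ∧
    ((∃ v : V, stabilizer U v ≠ ⊥) → (∃ e : Ed, stabilizer U e = ⊥) →
      #{i | stabilizer U (a i) = ⊥} < #{k | stabilizer U (b k) = ⊥}) := by
  choose i g hg using a1
  choose k u hu using b1
  have hi : ∀ (c : U) j x, c • a j = x → i x = j := fun c j x h =>
    a2 _ _ (c⁻¹ * g x) (by rw [mul_smul, hg, ← h, inv_smul_smul])
  let S : Finset (κ × Bool) := {p | stabilizer U (en o t (b p.1, p.2)) = ⊥}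
  let T : Finset (κ × Bool) := ({k | stabilizer U (b k) = ⊥} : Finset κ) ×ˢ univ
  have hT : #T = #{k | stabilizer U (b k) = ⊥} * 2 := by
    rw [card_product, card_univ, Fintype.card_bool]
  have hST : S ⊆ T := fun p hp =>
    mem_product.2 ⟨mem_filter.2 ⟨mem_univ _, hG.bot_edge (mem_filter.1 hp).2⟩, mem_univ _⟩
  have e1 : ∀ e s, u e • en o t (b (k e), s) = en o t (e, s) := fun e s => by
    rw [← hG.en_smul, hu]
  have h1 : 2 * #{i | stabilizer U (a i) = ⊥} ≤ #S := by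
    refine mul_card_image_le_card_of_maps_to (f := fun p => i (en o t (b p.1, p.2)))
      (fun p hp => mem_filter.2 ⟨mem_univ _, ?_⟩) 2 fun j hj => ?_
    · rw [← bot_smul' (g _), hg]
      exact (mem_filter.1 hp).2
    · have hj' := (mem_filter.1 hj).2
      obtain ⟨⟨p, s⟩, ⟨q, r⟩, hpq, hp, hq⟩ := hv _ hj'
      have h2 : ∀ e s, en o t (e, s) = a j → (k e, s) ∈ S.filter
          fun p => i (en o t (b p.1, p.2)) = j := fun e s h => by
        refine mem_filter.2 ⟨mem_filter.2 ⟨mem_univ _, ?_⟩, hi (u e)⁻¹ _ _ ?_⟩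
        · rw [← bot_smul' (u e), e1, h, hj']
        · rw [inv_smul_eq_iff, e1, h]
      refine one_lt_card.2 ⟨_, h2 p s hp, _, h2 q r hq, fun h => hpq ?_⟩
      obtain ⟨h3, rfl⟩ := Prod.mk.inj h
      have h4 : (u q * (u p)⁻¹) • p = q := by
        rw [mul_smul, inv_smul_eq_iff.2 (hu p).symm, h3, hu]
      have h5 : u q * (u p)⁻¹ ∈ stabilizer U (a j) := by
        rw [mem_stabilizer_iff, ← hp, ← hG.en_smul, h4, hq, hp]
      rw [hj', Subgroup.mem_bot] at h5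
      rw [← h4, h5, one_smul]
  refine ⟨by have := card_le_card hST; omega, fun ⟨v, hv'⟩ ⟨e, he⟩ => ?_⟩
  have h6 : S ⊂ T := ⟨hST, fun hTS => ?_⟩
  · have := card_lt_card h6
    omega
  have h7 : ∀ e s, stabilizer U e = ⊥ → stabilizer U (en o t (e, s)) = ⊥ := fun e s he => by
    have h8 : (k e, s) ∈ T := mem_product.2 ⟨mem_filter.2 ⟨mem_univ _, by
      rw [← bot_smul' (u e), hu, he]⟩, mem_univ _⟩
    rw [← e1, bot_smul']
    exact (mem_filter.1 (hTS h8)).2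
  exact hv' (hC.2 {v | stabilizer U v = ⊥} (fun e =>
    ⟨fun h => h7 e true (hG.bot_edge (s := false) h),
      fun h => h7 e false (hG.bot_edge (s := true) h)⟩) (o e) v (h7 e false he))

open Classical in
/-- The count when the edge groups are commutative. -/
theorem x3_comm [IsFreeGroup U] (hU : FinRk U) (hG : Gr U o t) (hF : Forest o t) (hC : Conn o t)
    {ι κ : Type} [Fintype ι] [Fintype κ] {a : ι → V} {b : κ → Ed} (a1 : Meets U a)
    (a2 : Ineq U a) (b1 : Meets U b) (b2 : Ineq U b)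
    (hb : ∀ (e : Ed) (g h : U), g • e = e → h • e = e → g * h = h * g) :
    (∀ v : V, FinRk (stabilizer U v)) ∧ ∑ i, rk (stabilizer U (a i)) +
      #{k | stabilizer U (b k) = ⊥} + 1 = Fintype.card ι + rk U := by
  have h0 : ∀ e : Ed, FinRk (stabilizer U e) ∧ rk (stabilizer U e) ≤ 1 := fun e =>
    rk_comm fun g h => Subtype.ext (hb e g h g.2 h.2)
  obtain ⟨h1, h2⟩ := x3 hU hG hF hC a1 a2 b1 b2 fun k => (h0 _).1
  have h3 : ∑ k, rk (stabilizer U (b k)) + #{k | stabilizer U (b k) = ⊥} = Fintype.card κ := by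
    rw [card_filter, ← sum_add_distrib, ← card_univ, card_eq_sum_ones]
    refine sum_congr rfl fun k _ => ?_
    split_ifs with h
    · rw [(rk_bot _ h).2]
    · have := (Subgroup.nontrivial_iff_ne_bot _).2 h
      have := (h0 (b k)).1.pos
      have := (h0 (b k)).2
      omega
  exact ⟨h1, by omega⟩

theorem sum_ge {ι : Type} [Fintype ι] (f : ι → ℕ) (n : ℕ) (i₀ : ι) (h : ∀ i, n ≤ f i) :
    f i₀ + n * Fintype.card ι ≤ ∑ i, f i + n := by
  classical
  have h1 := card_nsmul_le_sum (univ.erase i₀) f n fun i _ => h i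
  have h2 := card_erase_add_one (mem_univ i₀)
  rw [← add_sum_erase _ _ (mem_univ i₀), ← card_univ, ← h2, smul_eq_mul] at *
  nlinarith

/-- Some edge group is trivial: all vertex groups have smaller rank. -/
theorem drop1 [IsFreeGroup U] (hU : FinRk U) (h0 : 0 < rk U) (hG : Gr U o t) (hF : Forest o t)
    (hC : Conn o t) [Finite (Orb U V)] [Finite (Orb U Ed)]
    (hb : ∀ (e : Ed) (g h : U), g • e = e → h • e = e → g * h = h * g)
    (hv : ∀ v : V, stabilizer U v = ⊥ → ∃ p q : Ed × Bool, p ≠ q ∧ en o t p = v ∧ en o t q = v)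
    (he : ∃ e : Ed, stabilizer U e = ⊥) (v : V) : rk (stabilizer U v) < rk U := by
  classical
  obtain ⟨ι, _, a, a1, a2, -⟩ := exists_reps U V
  obtain ⟨κ, _, b, b1, b2, -⟩ := exists_reps U Ed
  by_cases h : stabilizer U v = ⊥
  · rwa [(rk_bot _ h).2]
  obtain ⟨h1, h2⟩ := x3_comm hU hG hF hC a1 a2 b1 b2 hb
  have h3 := (val_count hG hC a1 a2 b1 hv).2 ⟨v, h⟩ he
  obtain ⟨i, g, rfl⟩ := a1 v
  rw [bot_smul'] at h
  have h4 := sum_ge (fun i => rk (stabilizer U (a i)) +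
    if stabilizer U (a i) = ⊥ then 1 else 0) 1 i fun j => by
      split_ifs with hj
      · omega
      · have := (Subgroup.nontrivial_iff_ne_bot _).2 hj
        exact (h1 (a j)).pos
  rw [sum_add_distrib, ← card_filter, if_neg h] at h4
  rw [rk_smul]
  omega

/-- Cyclic edge groups and non-commutative vertex groups. -/
theorem drop2 [IsFreeGroup U] (hU : FinRk U) (hG : Gr U o t) (hF : Forest o t)
    (hC : Conn o t) [Finite (Orb U V)] [Finite (Orb U Ed)]
    (hb : ∀ (e : Ed) (g h : U), g • e = e → h • e = e → g * h = h * g)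
    (hv : ∀ v : V, ∃ g h : U, g • v = v ∧ h • v = v ∧ g * h ≠ h * g) (v : V) :
    rk (stabilizer U v) + Nat.card (Orb U V) ≤ rk U + 1 := by
  classical
  obtain ⟨ι, _, a, a1, a2, a3⟩ := exists_reps U V
  obtain ⟨κ, _, b, b1, b2, -⟩ := exists_reps U Ed
  obtain ⟨h1, h2⟩ := x3_comm hU hG hF hC a1 a2 b1 b2 hb
  obtain ⟨i, g, rfl⟩ := a1 v
  have h4 := sum_ge (fun i => rk (stabilizer U (a i))) 2 i fun j => by
    obtain ⟨g, h, hg, hh, hne⟩ := hv (a j)
    exact (h1 (a j)).two_le (a := ⟨g, hg⟩) (b := ⟨h, hh⟩) fun e => hne (congrArg Subtype.val e)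
  rw [rk_smul, ← a3]
  omega

end Count

section Amb

open Q2T7 Q2T2

variable {G : Type} [Group G]

/-- The two forms of the stabiliser. -/
def stEquiv (U : Subgroup G) {X : Type} [MulAction G X] (x : X) : stabilizer U x ≃* St U x where
  toFun g := ⟨g.1.1, g.1.2, g.2⟩
  invFun g := ⟨⟨g.1, g.2.1⟩, g.2.2⟩
  left_inv _ := rfl
  right_inv _ := rfl
  map_mul' _ _ := rfl

theorem rk_St (U : Subgroup G) {X : Type} [MulAction G X] (x : X) :
    rk (St U x) = rk (stabilizer U x) := (rk_congr (stEquiv U x)).symm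

theorem St_bot {U : Subgroup G} {X : Type} [MulAction G X] {x : X} :
    St U x = ⊥ ↔ stabilizer U x = ⊥ := by
  simp only [eq_bot_iff]
  exact ⟨fun h g hg => Subtype.ext (h (show g.1 ∈ St U x from ⟨g.2, hg⟩)),
    fun h g hg => congrArg Subtype.val (h (show (⟨g, hg.1⟩ : U) ∈ stabilizer U x from hg.2))⟩

theorem freeRk {U : Subgroup G} {k : ℕ} (h : FreeRk U k) : IsFreeGroup U ∧ FinRk U ∧ rk U = k := by
  obtain ⟨e⟩ := h
  exact ⟨IsFreeGroup.ofMulEquiv e.symm, (rk_free _).1.congr e.symm, (rk_congr e).trans (rk_fin k)⟩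

/-- A finitely generated subgroup of a free subgroup is free of its rank. -/
theorem freeRk_of_le {U W : Subgroup G} {k : ℕ} (h : FreeRk U k) (hW : W ≤ U) (hf : FinRk W) :
    FreeRk W (rk W) ∧ W.FG := by
  have := (freeRk h).1
  have : IsFreeGroup W := IsFreeGroup.ofMulEquiv (Subgroup.subgroupOfEquivOfLe hW)
  exact ⟨hf.equiv, (Group.fg_iff_subgroup_fg W).1 hf.fg⟩

theorem IsOr.forest' {U X : Type} [Group U] [MulAction U X] {O : SubMulAction U (X × X)}
    {Γ : SimpleGraph X} (h : IsOr Γ.Adj O) (hA : Γ.IsAcyclic) : Forest (oo O) (tt O) := by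
  classical
  intro Q _ ω
  obtain ⟨f, hf⟩ := exists_pot hA (fun x y => if h1 : (x, y) ∈ O then ω ⟨_, h1⟩ else
      if h2 : (y, x) ∈ O then (ω ⟨_, h2⟩)⁻¹ else 1) fun x y hxy => by
    by_cases h1 : (y, x) ∈ O
    · have h2 : (x, y) ∉ O := fun h2 => (h.xor x y hxy).1 h2 h1
      simp [h1, h2]
    · have h2 : (x, y) ∈ O := (h.xor x y hxy).2 h1
      simp [h1, h2]
  refine ⟨f, fun e => ?_⟩
  rw [hf _ _ (h.sub _ e.2), dif_pos e.2]

theorem x2F : X2F := by
  intro G _ U k X _ Γ R A hU hΓ h1 h2 h3 h4 h5 h6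
  have := (freeRk hU).1
  obtain ⟨O, hO⟩ := exists_or (U := U) Γ.Adj (fun x y h => h.symm) (fun g => h1 g g.2)
    fun g => h2 g g.2
  have h7 : ∀ p : A, ∃ e : O, s(oo O e, tt O e) = s(p.1.1, p.1.2) := fun p => by
    rcases hO.cases (h5 p p.2).1 with ⟨e, e1, e2⟩ | ⟨e, e1, e2⟩
    · exact ⟨e, by rw [e1, e2]⟩
    · exact ⟨e, by rw [e1, e2, Sym2.eq_swap]⟩
  choose b hb using h7
  obtain ⟨h8, h9⟩ := x2_le (gr_or O) (hO.forest' hΓ) (a := fun x : R => x.1) (b := b)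
    (fun x => by
      obtain ⟨g, hg, hx⟩ := h3 x
      exact ⟨⟨_, hx⟩, ⟨g, hg⟩⁻¹, inv_smul_smul g x⟩)
    (fun p q g h => Subtype.ext (h6 p p.2 q q.2 g g.2 (by
      have e := congrArg (Sym2.map fun x : X => g.1 • x) (hb p)
      simp only [Sym2.map_mk] at e
      rw [← e, ← hb q, ← h]
      rfl)))
    fun x => (FinRk.of_fg ((Group.fg_iff_subgroup_fg _).2 (h4 x))).congr (stEquiv U x.1).symm
  simp only [← rk_St] at h9
  rw [sum_coe_sort R fun x => rk (St U x)] at h9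
  refine le_trans ?_ h9
  rw [← Fintype.card_coe, ← card_univ, card_eq_sum_ones]
  refine sum_le_sum fun p _ => ?_
  obtain ⟨c, hc, hz⟩ := (h5 p p.2).2
  have hm : c ∈ St U p.1.1 ⊓ St U p.1.2 := hz ▸ Subgroup.mem_zpowers c
  have hf : (⟨c, hm.1.1⟩ : U) • b p = b p := fix_or.2 (by
    rcases Sym2.eq_iff.1 (hb p) with ⟨e1, e2⟩ | ⟨e1, e2⟩ <;> rw [e1, e2]
    · exact ⟨hm.1.2, hm.2.2⟩
    · exact ⟨hm.2.2, hm.1.2⟩)
  have : Nontrivial (stabilizer U (b p)) :=
    ⟨⟨_, hf⟩, 1, fun e => hc (congrArg (fun g : stabilizer U (b p) => g.1.1) e)⟩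
  exact (h8 (b p)).pos

variable {U : Subgroup G} {T : Type} [MetricSpace T] [MulAction G T]

theorem finite_orb {X : Type} [MulAction G X] {R : Set X} (hR : R.Finite)
    (h : ∀ x, ∃ g ∈ U, g • x ∈ R) : Finite (Orb U X) := by
  have := hR.to_subtype
  exact Meets.finite (a := fun x : R => x.1) fun x => by
    obtain ⟨g, hg, hx⟩ := h x
    exact ⟨⟨_, hx⟩, ⟨g, hg⟩⁻¹, inv_smul_smul g x⟩

theorem finite_or (hc : Cocpt U T) {O : SubMulAction U (T × T)}
    (hO : IsOr (fun x y : T => dist x y = 1) O) : Finite (Orb U T) ∧ Finite (Orb U O) := by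
  obtain ⟨R, h1, h2⟩ := hc.finV
  obtain ⟨S, h3, h4⟩ := hc.finE
  refine ⟨finite_orb h1 h2, ?_⟩
  have := (h3.preimage (f := (Subtype.val : O → T × T)) Subtype.val_injective.injOn).to_subtype
  exact Meets.finite (a := fun x : (Subtype.val : O → T × T) ⁻¹' S => x.1) fun x => by
    obtain ⟨g, hg, hx⟩ := h4 _ _ (hO.sub _ x.2)
    exact ⟨⟨(⟨g, hg⟩ : U) • x, hx⟩, ⟨g, hg⟩⁻¹, inv_smul_smul _ x⟩

/-- The edge groups are commutative. -/
def CE (U : Subgroup G) (T : Type) [MetricSpace T] [MulAction G T] : Prop :=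
  ∀ x y : T, dist x y = 1 → ∀ g ∈ St U x ⊓ St U y, ∀ h ∈ St U x ⊓ St U y, Commute g h

theorem CE.or (h : CE U T) {O : SubMulAction U (T × T)}
    (hO : IsOr (fun x y : T => dist x y = 1) O) (e : O) (g k : U) (hg : g • e = e)
    (hk : k • e = e) : g * k = k * g :=
  Subtype.ext (h _ _ (hO.sub _ e.2) g ⟨⟨g.2, (fix_or.1 hg).1⟩, g.2, (fix_or.1 hg).2⟩
    k ⟨⟨k.2, (fix_or.1 hk).1⟩, k.2, (fix_or.1 hk).2⟩)

variable [IsSimp T] [Nonempty T] [IsIsometricSMul G T] {k : ℕ}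

/-- The vertex groups are finitely generated and free of their rank. -/
theorem a_fg (hU : FreeRk U k) (hN : NoInv T U) (hc : Cocpt U T) (hE : CE U T) (x : T) :
    FreeRk (St U x) (rk (St U x)) ∧ (St U x).FG := by
  obtain ⟨_, h1, -⟩ := freeRk hU
  obtain ⟨O, hO⟩ := (ni_sub hN).or
  obtain ⟨_, _⟩ := finite_or hc hO
  have := Fintype.ofFinite (Orb U T)
  have := Fintype.ofFinite (Orb U O)
  exact freeRk_of_le hU inf_le_left (((x3_comm h1 (gr_or O) (hO.forest arcs_simp) hO.conn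
    meets_out ineq_out meets_out ineq_out (hE.or hO)).1 x).congr (stEquiv U x))

/-- (DROP1) -/
theorem a_drop1 (hU : FreeRk U k) (hk : 0 < k) (hN : NoInv T U) (hc : Cocpt U T) (hE : CE U T)
    (hv : ∀ x : T, St U x = ⊥ → ∃ y z, y ≠ z ∧ dist x y = 1 ∧ dist x z = 1)
    (he : ∃ x y : T, dist x y = 1 ∧ St U x ⊓ St U y = ⊥) (x : T) : rk (St U x) < k := by
  obtain ⟨_, h1, rfl⟩ := freeRk hU
  obtain ⟨O, hO⟩ := (ni_sub hN).or
  obtain ⟨_, _⟩ := finite_or hc hO
  rw [rk_St]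
  refine drop1 h1 hk (gr_or O) (hO.forest arcs_simp) hO.conn (hE.or hO) (fun v h => ?_) ?_ x
  · obtain ⟨y, z, hyz, hy, hz⟩ := hv v (St_bot.2 h)
    have h2 : ∀ w, dist v w = 1 → ∃ p : O × Bool, en (oo O) (tt O) p = v ∧
        en (tt O) (oo O) p = w := fun w hw => by
      rcases hO.cases hw with ⟨e, e1, e2⟩ | ⟨e, e1, e2⟩
      · exact ⟨(e, false), e1, e2⟩
      · exact ⟨(e, true), e2, e1⟩
    obtain ⟨p, p1, p2⟩ := h2 y hy
    obtain ⟨q, q1, q2⟩ := h2 z hz
    exact ⟨p, q, fun e => hyz (by rw [← p2, e, q2]), p1, q1⟩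
  · obtain ⟨y, z, h2, h3⟩ := he
    have h4 : ∀ g : U, g • y = y → g • z = z → g = 1 := fun g a b =>
      Subtype.ext (Subgroup.mem_bot.1 (h3 ▸ (⟨⟨g.2, a⟩, g.2, b⟩ : g.1 ∈ St U y ⊓ St U z)))
    rcases hO.cases h2 with ⟨e, rfl, rfl⟩ | ⟨e, rfl, rfl⟩
    · exact ⟨e, eq_bot_iff.2 fun g hg => h4 g (fix_or.1 hg).1 (fix_or.1 hg).2⟩
    · exact ⟨e, eq_bot_iff.2 fun g hg => h4 g (fix_or.1 hg).2 (fix_or.1 hg).1⟩

/-- (DROP2) -/
theorem a_drop2 (hU : FreeRk U k) (hN : NoInv T U) (hc : Cocpt U T) (hE : CE U T)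
    (hv : ∀ x : T, ∃ g ∈ St U x, ∃ h ∈ St U x, ¬ Commute g h) (x : T) :
    rk (St U x) ≤ k ∧ (rk (St U x) < k ∨ ∀ y : T, ∃ g ∈ U, g • x = y) := by
  obtain ⟨_, h1, rfl⟩ := freeRk hU
  obtain ⟨O, hO⟩ := (ni_sub hN).or
  obtain ⟨_, _⟩ := finite_or hc hO
  have h2 := drop2 h1 (gr_or O) (hO.forest arcs_simp) hO.conn (hE.or hO) (fun v => by
    obtain ⟨g, hg, h, hh, hne⟩ := hv v
    exact ⟨⟨g, hg.1⟩, ⟨h, hh.1⟩, hg.2, hh.2, fun e => hne (congrArg Subtype.val e)⟩) x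
  have : Nonempty (Orb U T) := ⟨Quotient.mk'' x⟩
  have h3 := Nat.card_pos (α := Orb U T)
  rw [rk_St]
  refine ⟨by omega, or_iff_not_imp_right.2 fun h => ?_⟩
  obtain ⟨y, hy⟩ := not_forall.1 h
  have : Nontrivial (Orb U T) := ⟨Quotient.mk'' y, Quotient.mk'' x, fun e => by
    obtain ⟨g, hg⟩ := orb_eq.1 e
    exact hy ⟨g, g.2, hg⟩⟩
  have h4 := Finite.one_lt_card (α := Orb U T)
  omega

end Amb

end Pool.Agent.MP_3ce0a0_al.Q2T3
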