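import Mathlib

/-! Groups acting on oriented forests: flat bundles, extension of homomorphisms. -/

set_option autoImplicit false

namespace Pool.Agent.MP_3ce0a0_al.Q2T3

open MulAction

/-- An oriented graph with an action that preserves the orientation. -/
structure Gr (E : Type) [Group E] {V Ed : Type} [MulAction E V] [MulAction E Ed]
    (o t : Ed → V) : Prop where
  o_smul : ∀ (g : E) e, o (g • e) = g • o e
  t_smul : ∀ (g : E) e, t (g • e) = g • t e

/-- Forest: every flat bundle is trivial. -/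
def Forest {V Ed : Type} (o t : Ed → V) : Prop :=
  ∀ (Q : Type) [Group Q] (ω : Ed → Q), ∃ f : V → Q, ∀ e, f (t e) = ω e * f (o e)

/-- Connected. -/
def Conn {V Ed : Type} (o t : Ed → V) : Prop :=
  Nonempty V ∧ ∀ S : Set V, (∀ e, o e ∈ S ↔ t e ∈ S) → ∀ u v, u ∈ S → v ∈ S

/-- The set of orbits. -/
abbrev Orb (E X : Type) [Group E] [MulAction E X] : Type := orbitRel.Quotient E X

section

variable {E : Type} [Group E] {X : Type} [MulAction E X]

theorem orb_eq {x y : X} : (Quotient.mk'' x : Orb E X) = Quotient.mk'' y ↔ ∃ g : E, g • y = x :=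
  Quotient.eq''.trans (orbitRel_apply.trans mem_orbit_iff)

theorem orb_smul (g : E) (x : X) : (Quotient.mk'' (g • x) : Orb E X) = Quotient.mk'' x :=
  orb_eq.2 ⟨g, rfl⟩

theorem orb_out (x : X) : ∃ g : E, g • (Quotient.mk'' x : Orb E X).out = x :=
  orb_eq.1 (Quotient.out_eq' _).symm

/-- A system of representatives containing a given set of inequivalent points. -/
theorem exists_rep (R : Set X) (hR : ∀ r ∈ R, ∀ r' ∈ R, ∀ g : E, g • r = r' → r = r') :
    ∃ (ρ : X → X) (s : X → E), (∀ x, s x • ρ x = x) ∧ (∀ (g : E) x, ρ (g • x) = ρ x) ∧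
      (∀ r ∈ R, ρ r = r ∧ s r = 1) := by
  classical
  have h1 : ∀ q : Orb E X, ∃ x, Quotient.mk'' x = q ∧ ∀ r ∈ R, Quotient.mk'' r = q → x = r := by
    intro q
    by_cases h : ∃ r ∈ R, Quotient.mk'' r = q
    · obtain ⟨r, hr, rfl⟩ := h
      refine ⟨r, rfl, fun r' hr' h => ?_⟩
      obtain ⟨g, hg⟩ := orb_eq.1 h
      exact hR r hr r' hr' g hg
    · exact ⟨q.out, Quotient.out_eq' q, fun r hr h' => absurd ⟨r, hr, h'⟩ h⟩
  choose ρ h1 h2 using h1
  have h3 : ∀ x : X, ∃ g : E, g • ρ (Quotient.mk'' x) = x ∧ (x ∈ R → g = 1) := fun x => by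
    by_cases hx : x ∈ R
    · exact ⟨1, by rw [one_smul, h2 _ x hx rfl], fun _ => rfl⟩
    · obtain ⟨g, hg⟩ := orb_eq.1 (h1 (Quotient.mk'' x)).symm
      exact ⟨g, hg, fun h => absurd h hx⟩
  choose s h3 h4 using h3
  exact ⟨fun x => ρ (Quotient.mk'' x), s, h3, fun g x => by simp only [orb_smul],
    fun r hr => ⟨h2 _ r hr rfl, h4 r hr⟩⟩

/-- A cocycle. -/
def Coc {Q : Type} [Group Q] (c : E → X → Q) : Prop :=
  ∀ g h x, c (g * h) x = c g (h • x) * c h x

theorem Coc.one {Q : Type} [Group Q] {c : E → X → Q} (hc : Coc c) (x : X) : c 1 x = 1 := by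
  have h := hc 1 1 x
  rw [one_mul, one_smul] at h
  exact (left_eq_mul.1 h)

theorem Coc.inv {Q : Type} [Group Q] {c : E → X → Q} (hc : Coc c) (g : E) (x : X) :
    c g⁻¹ (g • x) = (c g x)⁻¹ := by
  have h := hc g⁻¹ g x
  rw [inv_mul_cancel, hc.one] at h
  exact eq_inv_of_mul_eq_one_left h.symm

/-- The cocycle induced by homomorphisms on the stabilisers. -/
theorem exists_coc {Q : Type} [Group Q] (ρ : X → X) (s : X → E) (hs : ∀ x, s x • ρ x = x)
    (hρ : ∀ (g : E) x, ρ (g • x) = ρ x) (l : X → E → Q)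
    (hl : ∀ x g h, g • x = x → h • x = x → l x (g * h) = l x g * l x h) :
    ∃ c : E → X → Q, Coc c ∧ ∀ g x, g • x = x → c g x = l (ρ x) ((s x)⁻¹ * g * s x) := by
  have h1 : ∀ (g : E) x, ((s (g • x))⁻¹ * g * s x) • ρ x = ρ x := fun g x => by
    rw [mul_smul, mul_smul, hs, inv_smul_eq_iff, ← hρ g x, hs]
  refine ⟨fun g x => l (ρ x) ((s (g • x))⁻¹ * g * s x), fun g h x => ?_, fun g x h => by
    simp only [h]⟩
  have h2 := h1 g (h • x)
  rw [hρ] at h2
  simp only [hρ]
  rw [← hl _ _ _ h2 (h1 h x), mul_smul]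
  congr 1
  group

/-- An equivariant section. -/
theorem exists_sec {Q : Type} [Group Q] (a b : E → X → Q) (ha : Coc a) (hb : Coc b)
    (h : ∀ x, ∃ q, ∀ g, g • x = x → q * a g x = b g x * q) :
    ∃ ω : X → Q, ∀ g x, ω (g • x) * a g x = b g x * ω x := by
  obtain ⟨ρ, s, hs, hρ, -⟩ := exists_rep (E := E) (∅ : Set X) (fun r hr => hr.elim)
  choose q hq using h
  refine ⟨fun x => b (s x) (ρ x) * q (ρ x) * (a (s x) (ρ x))⁻¹, fun g x => ?_⟩
  have h1 : ((s (g • x))⁻¹ * g * s x) • ρ x = ρ x := by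
    rw [mul_smul, mul_smul, hs, inv_smul_eq_iff, ← hρ g x, hs]
  have h2 := hq _ _ h1
  have h3 : ∀ c : E → X → Q, Coc c → c ((s (g • x))⁻¹ * g * s x) (ρ x) =
      (c (s (g • x)) (ρ x))⁻¹ * c g x * c (s x) (ρ x) := fun c hc => by
    rw [hc, hc, hs, ← hc.inv, ← hρ g x, hs]
  rw [h3 a ha, h3 b hb] at h2
  simp only [hρ]
  calc _ = b (s (g • x)) (ρ x) * (q (ρ x) * ((a (s (g • x)) (ρ x))⁻¹ * a g x * a (s x) (ρ x))) *
        (a (s x) (ρ x))⁻¹ := by group
    _ = _ := by rw [h2]; group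

end

variable {E : Type} [Group E] {V Ed : Type} [MulAction E V] [MulAction E Ed] {o t : Ed → V}

theorem Conn.const {Y : Type} (hC : Conn o t) (f : V → Y) (h : ∀ e, f (o e) = f (t e))
    (u v : V) : f u = f v :=
  hC.2 {x | f u = f x} (fun e => by simp only [Set.mem_ofPred_eq, h]) u v rfl

theorem Gr.fix_o (hG : Gr E o t) {g : E} {e : Ed} (h : g • e = e) : g • o e = o e := by
  rw [← hG.o_smul, h]

theorem Gr.fix_t (hG : Gr E o t) {g : E} {e : Ed} (h : g • e = e) : g • t e = t e := by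
  rw [← hG.t_smul, h]

/-- The action of a subgroup. -/
theorem Gr.sub (hG : Gr E o t) (H : Subgroup E) : Gr H o t :=
  ⟨fun g e => hG.o_smul g e, fun g e => hG.t_smul g e⟩

/-- The holonomy of an equivariant flat bundle on a tree. -/
theorem master (hG : Gr E o t) (hF : Forest o t) (hC : Conn o t) {Q : Type} [Group Q]
    (c : E → V → Q) (hc : Coc c) (ω : Ed → Q)
    (hω : ∀ g e, ω (g • e) * c g (o e) = c g (t e) * ω e) :
    ∃ (φ : E →* Q) (f : V → Q), (∀ e, f (t e) = ω e * f (o e)) ∧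
      ∀ g v, f (g • v) * φ g = c g v * f v := by
  obtain ⟨f, hf⟩ := hF Q ω
  obtain ⟨v₀⟩ := hC.1
  have h1 : ∀ g u v, (f (g • u))⁻¹ * c g u * f u = (f (g • v))⁻¹ * c g v * f v := fun g =>
    hC.const (fun v => (f (g • v))⁻¹ * c g v * f v) fun e => by
      simp only [← hG.o_smul, ← hG.t_smul, hf]
      calc _ = (f (o (g • e)))⁻¹ * (ω (g • e))⁻¹ * (ω (g • e) * c g (o e)) * f (o e) := by group
        _ = _ := by rw [hω]; group
  refine ⟨MonoidHom.mk' (fun g => (f (g • v₀))⁻¹ * c g v₀ * f v₀) fun g h => ?_, f, hf,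
    fun g v => ?_⟩
  · rw [h1 g v₀ (h • v₀), hc, mul_smul]
    group
  · rw [MonoidHom.mk'_apply, h1 g v₀ v]
    group

/-- (UP) homomorphisms on inequivalent vertex groups that kill the adjacent edge groups extend
up to conjugacy, trivially on the other vertex groups. -/
theorem up (hG : Gr E o t) (hF : Forest o t) (hC : Conn o t) {Q : Type} [Group Q] (R : Set V)
    (hR : ∀ r ∈ R, ∀ r' ∈ R, ∀ g : E, g • r = r' → r = r') (l : ∀ r : V, stabilizer E r →* Q)
    (hl : ∀ r ∈ R, ∀ (h : stabilizer E r) (e : Ed), (h : E) • e = e → o e = r ∨ t e = r →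
      l r h = 1) :
    ∃ φ : E →* Q, (∀ r ∈ R, ∃ q, ∀ h : stabilizer E r, φ h = q⁻¹ * l r h * q) ∧
      ∀ v, (∀ r ∈ R, ∀ g : E, g • r ≠ v) → ∀ h : E, h • v = v → φ h = 1 := by
  classical
  obtain ⟨ρ, s, hs, hρ, hr⟩ := exists_rep R hR
  obtain ⟨c, hc, hcl⟩ := exists_coc ρ s hs hρ
    (fun x g => if h : x ∈ R ∧ g • x = x then l x ⟨g, h.2⟩ else 1) fun x g h hg hh => by
      by_cases hx : x ∈ R
      · have hgh : (g * h) • x = x := by rw [mul_smul, hh, hg]
        rw [dif_pos (⟨hx, hgh⟩ : x ∈ R ∧ (g * h) • x = x), dif_pos (⟨hx, hg⟩ : x ∈ R ∧ g • x = x),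
          dif_pos (⟨hx, hh⟩ : x ∈ R ∧ h • x = x), ← map_mul]
        rfl
      · simp [hx]
  have h1 : ∀ (g : E) (e : Ed) (v : V), g • e = e → o e = v ∨ t e = v → c g v = 1 := by
    intro g e v he hv
    have hv' : g • v = v := by
      rcases hv with rfl | rfl
      · exact hG.fix_o he
      · exact hG.fix_t he
    rw [hcl g v hv']
    split_ifs with h
    · refine hl _ h.1 _ ((s v)⁻¹ • e) (by simp only [mul_smul, smul_inv_smul, he]) ?_
      simp only [hG.o_smul, hG.t_smul, inv_smul_eq_iff, hs]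
      exact hv
    · rfl
  obtain ⟨ω, hω⟩ := exists_sec (fun g e => c g (o e)) (fun g e => c g (t e))
    (fun g h e => by simp only [hG.o_smul, hc g h]) (fun g h e => by simp only [hG.t_smul, hc g h])
    fun e => ⟨1, fun g hg => by
      simp only [h1 g e _ hg (Or.inl rfl), h1 g e _ hg (Or.inr rfl)]⟩
  obtain ⟨φ, f, -, hf⟩ := master hG hF hC c hc ω hω
  refine ⟨φ, fun r hr' => ⟨f r, fun h => ?_⟩, fun v hv h hh => ?_⟩
  · have h2 := hf h r
    have h3 : (h : E) • r = r := h.2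
    rw [h3, hcl _ _ h3, (hr r hr').1, (hr r hr').2, inv_one, one_mul, mul_one,
      dif_pos ⟨hr', h3⟩] at h2
    rw [mul_assoc, ← h2, inv_mul_cancel_left]
  · have h2 := hf h v
    rw [hh, hcl _ _ hh, dif_neg fun h' => hv _ h'.1 _ (hs v), one_mul] at h2
    exact mul_eq_left.1 h2

/-- (UP) for one vertex: an exact extension. -/
theorem up1 (hG : Gr E o t) (hF : Forest o t) (hC : Conn o t) {Q : Type} [Group Q] (r : V)
    (l : stabilizer E r →* Q)
    (hl : ∀ (h : stabilizer E r) (e : Ed), (h : E) • e = e → o e = r ∨ t e = r → l h = 1) :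
    ∃ φ : E →* Q, (∀ h : stabilizer E r, φ h = l h) ∧
      ∀ v, (∀ g : E, g • r ≠ v) → ∀ h : E, h • v = v → φ h = 1 := by
  classical
  obtain ⟨φ, h1, h2⟩ := up hG hF hC {r} (fun a ha b hb _ _ => ha.trans hb.symm)
    (Function.update (fun _ => 1) r l) fun a ha h e he hv => by
      obtain rfl : a = r := ha
      rw [Function.update_self]
      exact hl h e he hv
  obtain ⟨q, hq⟩ := h1 r rfl
  rw [Function.update_self] at hq
  refine ⟨(MulAut.conj q).toMonoidHom.comp φ, fun h => ?_, fun v hv h hh => ?_⟩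
  · simp [hq, mul_assoc]
  · have := h2 v (fun a ha => by obtain rfl : a = r := ha; exact hv) h hh
    simp [this]

/-- (X1) equivariant homomorphisms on the vertex groups that agree on the edge groups extend. -/
theorem x1 (hG : Gr E o t) (hF : Forest o t) (hC : Conn o t) {A : Type} [AddCommGroup A]
    (l : V → E → A) (hl : ∀ v g h, g • v = v → h • v = v → l v (g * h) = l v g + l v h)
    (heq : ∀ v g h, h • v = v → l (g • v) (g * h * g⁻¹) = l v h)
    (he : ∀ e h, h • e = e → l (o e) h = l (t e) h) :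
    ∃ φ : E → A, (∀ g h, φ (g * h) = φ g + φ h) ∧ ∀ v h, h • v = v → φ h = l v h := by
  obtain ⟨ρ, s, hs, hρ, -⟩ := exists_rep (E := E) (∅ : Set V) (fun r hr => hr.elim)
  obtain ⟨c, hc, hcl⟩ := exists_coc ρ s hs hρ (fun x g => Multiplicative.ofAdd (l x g))
    fun x g h hg hh => by rw [hl x g h hg hh, ofAdd_add]
  have h1 : ∀ g v, g • v = v → c g v = Multiplicative.ofAdd (l v g) := fun g v h => by
    rw [hcl g v h, ← heq _ (s v) _ (by rw [mul_smul, mul_smul, hs, h, inv_smul_eq_iff, hs]), hs]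
    congr 2
    group
  obtain ⟨ω, hω⟩ := exists_sec (fun g e => c g (o e)) (fun g e => c g (t e))
    (fun g h e => by simp only [hG.o_smul, hc g h]) (fun g h e => by simp only [hG.t_smul, hc g h])
    fun e => ⟨1, fun g hg => by
      simp only [h1 g _ (hG.fix_o hg), h1 g _ (hG.fix_t hg), he e g hg, one_mul, mul_one]⟩
  obtain ⟨φ, f, -, hf⟩ := master hG hF hC c hc ω hω
  refine ⟨fun g => (φ g).toAdd, fun g h => by simp only [map_mul, toAdd_mul],
    fun v h hh => ?_⟩
  have h2 := hf h v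
  rw [hh, h1 h v hh, mul_comm] at h2
  show (φ h).toAdd = _
  rw [mul_right_cancel h2, toAdd_ofAdd]

/-- (X4) the periods of an invariant function on the edges. -/
theorem x4 (hG : Gr E o t) (hF : Forest o t) (hC : Conn o t) {A : Type} [AddCommGroup A]
    (ω : Ed → A) (hω : ∀ (g : E) e, ω (g • e) = ω e) :
    ∃ (φ : E → A) (f : V → A), (∀ g h, φ (g * h) = φ g + φ h) ∧
      (∀ e, f (t e) - f (o e) = ω e) ∧ ∀ g v, φ g = f (g • v) - f v := by
  obtain ⟨φ, f, h1, h2⟩ := master hG hF hC (fun _ _ => (1 : Multiplicative A))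
    (fun _ _ _ => (one_mul _).symm) (fun e => Multiplicative.ofAdd (ω e))
    fun g e => by rw [hω, one_mul, mul_one]
  refine ⟨fun g => -(φ g).toAdd, fun v => (f v).toAdd, fun g h => ?_, fun e => ?_, fun g v => ?_⟩
  · simp only [map_mul, toAdd_mul, neg_add]
  · simp only [h1, toAdd_mul, toAdd_ofAdd, add_sub_cancel_right]
  · have h3 := congrArg Multiplicative.toAdd (h2 g v)
    rw [one_mul, toAdd_mul] at h3
    simp only [← h3]
    abel

/-- (X4) an edge whose two ends are equivalent gives a non-zero homomorphism that kills the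
elliptic elements. -/
theorem x4' (hG : Gr E o t) (hF : Forest o t) (hC : Conn o t) (e₀ : Ed) (g₀ : E)
    (h₀ : g₀ • o e₀ = t e₀) :
    ∃ φ : E → ℚ, (∀ g h, φ (g * h) = φ g + φ h) ∧ φ g₀ = 1 ∧
      ∀ (g : E) (v : V), g • v = v → φ g = 0 := by
  obtain ⟨φ, f, h1, h2, h3⟩ := x4 hG hF hC (fun _ => (1 : ℚ)) fun _ _ => rfl
  exact ⟨φ, h1, by rw [h3 g₀ (o e₀), h₀, h2], fun g v h => by rw [h3 g v, h, sub_self]⟩

/-- (FF) a group that acts freely on a tree is free. -/
theorem ff (hG : Gr E o t) (hF : Forest o t) (hC : Conn o t)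
    (hfree : ∀ (g : E) (v : V), g • v = v → g = 1) : IsFreeGroup E := by
  obtain ⟨φ, f, h1, h2⟩ := master hG hF hC (fun _ _ => (1 : FreeGroup (Orb E Ed)))
    (fun _ _ _ => (one_mul _).symm) (fun e => FreeGroup.of (Quotient.mk'' e))
    fun g e => by rw [orb_smul, one_mul, mul_one]
  have h3 : ∀ q : Orb E Ed, ∃ σ : Equiv.Perm (Set V), ∀ e, Quotient.mk'' e = q →
      σ {o e} = {t e} := fun q => by
    have inj : ∀ a : Ed → V, (∀ (g : E) e, a (g • e) = g • a e) →
        Function.Injective fun e : {e : Ed // (Quotient.mk'' e : Orb E Ed) = q} =>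
          ({a e.1} : Set V) := by
      intro a ha e e' h
      obtain ⟨g, hg⟩ := orb_eq.1 (e.2.trans e'.2.symm)
      have h4 : a e.1 = a e'.1 := Set.singleton_injective h
      rw [← hg, ha] at h4
      rw [hfree g _ h4, one_smul] at hg
      exact Subtype.ext hg.symm
    obtain ⟨σ, hσ⟩ := Cardinal.extend_function_of_lt
      ((Equiv.ofInjective _ (inj o hG.o_smul)).symm.toEmbedding.trans ⟨_, inj t hG.t_smul⟩)
      (by
        refine lt_of_le_of_lt ?_ (Cardinal.mk_set (α := V) ▸ Cardinal.cantor (Cardinal.mk V))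
        refine le_trans (Cardinal.mk_le_mk_of_subset (t := Set.range fun v : V => ({v} : Set V))
          ?_) Cardinal.mk_range_le
        rintro _ ⟨e, rfl⟩
        exact ⟨_, rfl⟩) ⟨Equiv.refl _⟩
    refine ⟨σ, fun e he => ?_⟩
    have h5 := hσ ⟨_, ⟨⟨e, he⟩, rfl⟩⟩
    rw [Function.Embedding.trans_apply, Equiv.coe_toEmbedding,
      Equiv.ofInjective_symm_apply] at h5
    exact h5
  choose σ hσ using h3
  obtain ⟨v₀⟩ := hC.1
  have h4 : ∀ v, FreeGroup.lift σ (f v * (f v₀)⁻¹) {v₀} = {v} := fun v =>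
    hC.2 {v | FreeGroup.lift σ (f v * (f v₀)⁻¹) {v₀} = {v}} (fun e => by
      simp only [Set.mem_ofPred_eq]
      rw [h1, mul_assoc, map_mul (FreeGroup.lift σ) (FreeGroup.of _), FreeGroup.lift_apply_of,
        Equiv.Perm.mul_apply, ← hσ _ e rfl, (σ _).injective.eq_iff]) v₀ v (by simp)
  have h5 : Function.Injective φ := (injective_iff_map_eq_one φ).2 fun g hg => by
    have h6 := h2 g v₀
    rw [hg, mul_one, one_mul] at h6
    have h7 := h4 (g • v₀)
    rw [h6, h4] at h7
    exact hfree g v₀ (Set.singleton_injective h7).symm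
  exact IsFreeGroup.ofMulEquiv (MonoidHom.ofInjective h5).symm

end Pool.Agent.MP_3ce0a0_al.Q2T3
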