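import Pool.Agent.MP_3ce0a0_al.Q2T3.C

/-! The rank count for actions on forests and trees. -/

set_option autoImplicit false

namespace Pool.Agent.MP_3ce0a0_al.Q2T3

open MulAction Module

section Set

variable {U X ι : Type} [Group U] [MulAction U X]

/-- The family meets every orbit. -/
def Meets (U : Type) {X ι : Type} [Group U] [MulAction U X] (a : ι → X) : Prop :=
  ∀ x, ∃ i, ∃ g : U, g • a i = x

/-- The members of the family are inequivalent. -/
def Ineq (U : Type) {X ι : Type} [Group U] [MulAction U X] (a : ι → X) : Prop :=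
  ∀ i j (g : U), g • a i = a j → i = j

theorem meets_out : Meets U (Quotient.out : Orb U X → X) := fun x => ⟨_, orb_out x⟩

theorem ineq_out : Ineq U (Quotient.out : Orb U X → X) := fun i j g h => by
  rw [← i.out_eq', ← j.out_eq', ← h, orb_smul]

theorem Meets.finite [Finite ι] {a : ι → X} (h : Meets U a) : Finite (Orb U X) :=
  Finite.of_surjective (fun i => (Quotient.mk'' (a i) : Orb U X)) fun q => by
    obtain ⟨i, g, hg⟩ := h q.out
    exact ⟨i, by rw [← q.out_eq', ← hg, orb_smul]⟩

variable (U X) in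
/-- Equivariant families of homomorphisms on the stabilisers. -/
def EH : Submodule ℚ (X → U → ℚ) where
  carrier := {l | (∀ x g h, g • x = x → h • x = x → l x (g * h) = l x g + l x h) ∧
    (∀ x g h, h • x = x → l (g • x) (g * h * g⁻¹) = l x h) ∧ ∀ x h, h • x ≠ x → l x h = 0}
  zero_mem' := ⟨fun _ _ _ _ _ => (add_zero _).symm, fun _ _ _ _ => rfl, fun _ _ _ => rfl⟩
  add_mem' := fun ⟨a1, a2, a3⟩ ⟨b1, b2, b3⟩ => ⟨fun x g h hg hh => by
      simp only [Pi.add_apply, a1 x g h hg hh, b1 x g h hg hh]; ring,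
    fun x g h hh => by simp only [Pi.add_apply, a2 x g h hh, b2 x g h hh],
    fun x h hh => by simp only [Pi.add_apply, a3 x h hh, b3 x h hh, add_zero]⟩
  smul_mem' := fun c _ ⟨a1, a2, a3⟩ => ⟨fun x g h hg hh => by
      simp only [Pi.smul_apply, a1 x g h hg hh, smul_add],
    fun x g h hh => by simp only [Pi.smul_apply, a2 x g h hh],
    fun x h hh => by simp only [Pi.smul_apply, a3 x h hh, smul_zero]⟩

open Classical in
theorem Coc.eh {c : U → X → Multiplicative ℚ} (hc : Coc c) :
    (fun x h => if h • x = x then (c h x).toAdd else 0) ∈ EH U X := by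
  refine ⟨fun x g h hg hh => ?_, fun x g h hh => ?_, fun x h hh => if_neg hh⟩
  · have : (g * h) • x = x := by rw [mul_smul, hh, hg]
    simp only [this, hg, hh, if_true, hc g h, toAdd_mul]
  · have : (g * h * g⁻¹) • g • x = g • x := by rw [mul_smul, inv_smul_smul, mul_smul, hh]
    simp only [this, hh, if_true, hc _ g⁻¹, inv_smul_smul, hc g h, hc.inv, toAdd_mul, toAdd_inv]
    ring

theorem EH.coc (l : EH U X) : ∃ c : U → X → Multiplicative ℚ, Coc c ∧
    ∀ g x, g • x = x → (c g x).toAdd = l.1 x g := by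
  obtain ⟨ρ, s, hs, hρ, -⟩ := exists_rep (E := U) (∅ : Set X) (fun r hr => hr.elim)
  obtain ⟨c, hc, hcl⟩ := exists_coc ρ s hs hρ (fun x g => Multiplicative.ofAdd (l.1 x g))
    fun x g h hg hh => by rw [l.2.1 x g h hg hh, ofAdd_add]
  refine ⟨c, hc, fun g v h => ?_⟩
  rw [hcl g v h, toAdd_ofAdd,
    ← l.2.2.1 _ (s v) _ (by rw [mul_smul, mul_smul, hs, h, inv_smul_eq_iff, hs]), hs]
  group

/-- Restriction to the stabilisers of a family of points. -/
def EH.res (a : ι → X) : EH U X →ₗ[ℚ] ∀ i, Hm (stabilizer U (a i)) where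
  toFun l i := mkHm (fun h => l.1 (a i) h) fun g h => l.2.1 _ _ _ g.2 h.2
  map_add' _ _ := rfl
  map_smul' _ _ := rfl

theorem EH.res_inj {a : ι → X} (ha : Meets U a) : Function.Injective (EH.res (U := U) a) := by
  refine (injective_iff_map_eq_zero _).2 fun l hl => Subtype.ext (funext fun x => funext fun h => ?_)
  by_cases hh : h • x = x
  · obtain ⟨i, g, rfl⟩ := ha x
    have h1 : (g⁻¹ * h * g) • a i = a i := by rw [mul_smul, mul_smul, hh, inv_smul_smul]
    have h2 := l.2.2.1 _ g _ h1
    have h3 : l.1 (a i) (g⁻¹ * h * g) = 0 :=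
      DFunLike.congr_fun (congrFun hl i) (Additive.ofMul ⟨_, h1⟩)
    rw [h3, show g * (g⁻¹ * h * g) * g⁻¹ = h by group] at h2
    exact h2
  · exact l.2.2.2 x h hh

theorem EH.res_surj {a : ι → X} (ha : Ineq U a) : Function.Surjective (EH.res (U := U) a) := by
  classical
  intro φ
  have inj : Function.Injective a := fun i j h => ha i j 1 (by rw [one_smul, h])
  obtain ⟨ρ, s, hs, hρ, hr⟩ := exists_rep (E := U) (Set.range a) (by
    rintro _ ⟨i, rfl⟩ _ ⟨j, rfl⟩ g h
    rw [ha i j g h])
  obtain ⟨c, hc, hcl⟩ := exists_coc ρ s hs hρ (Function.extend a (fun i g =>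
      if h : g • a i = a i then Multiplicative.ofAdd (φ i (Additive.ofMul ⟨g, h⟩)) else 1)
      fun _ _ => 1) fun x g h hg hh => by
    by_cases hx : ∃ i, a i = x
    · obtain ⟨i, rfl⟩ := hx
      have : (g * h) • a i = a i := by rw [mul_smul, hh, hg]
      simp only [inj.extend_apply, this, hg, hh, dif_pos, ← ofAdd_add, ← Hm.mul]
      rfl
    · simp only [Function.extend_apply' _ _ _ hx, mul_one]
  refine ⟨⟨_, hc.eh⟩, funext fun i => Hm.ext' fun h => ?_⟩
  have h1 : (h : U) • a i = a i := h.2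
  show (if (h : U) • a i = a i then (c h (a i)).toAdd else 0) = _
  rw [if_pos h1, hcl _ _ h1, (hr _ ⟨i, rfl⟩).1, (hr _ ⟨i, rfl⟩).2, inv_one, one_mul, mul_one,
    inj.extend_apply, dif_pos h1, toAdd_ofAdd]

theorem EH.finite [Finite ι] {a : ι → X} (ha : Meets U a)
    (h : ∀ i, FinRk (stabilizer U (a i))) : Module.Finite ℚ (EH U X) := by
  have : ∀ i, Module.Finite ℚ (Hm (stabilizer U (a i))) := h
  exact Module.Finite.of_injective _ (EH.res_inj ha)

theorem EH.le [Fintype ι] {a : ι → X} (ha : Meets U a) (h : ∀ i, FinRk (stabilizer U (a i))) :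
    finrank ℚ (EH U X) ≤ ∑ i, rk (stabilizer U (a i)) := by
  have : ∀ i, Module.Finite ℚ (Hm (stabilizer U (a i))) := h
  exact (LinearMap.finrank_le_finrank_of_injective (EH.res_inj ha)).trans
    (finrank_pi_fintype ℚ).le

theorem EH.finRk [Module.Finite ℚ (EH U X)] (x : X) : FinRk (stabilizer U x) :=
  Module.Finite.of_surjective
    ((LinearMap.proj ()).comp (EH.res (U := U) fun _ : Unit => x)) fun φ => by
      obtain ⟨l, hl⟩ := EH.res_surj (U := U) (a := fun _ : Unit => x) (fun _ _ _ _ => rfl)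
        fun _ => φ
      exact ⟨l, congrFun hl ()⟩

theorem EH.ge [Module.Finite ℚ (EH U X)] [Fintype ι] {a : ι → X} (ha : Ineq U a) :
    ∑ i, rk (stabilizer U (a i)) ≤ finrank ℚ (EH U X) := by
  have : ∀ i, Module.Finite ℚ (Hm (stabilizer U (a i))) := fun i => EH.finRk _
  exact (finrank_pi_fintype ℚ).ge.trans
    (LinearMap.finrank_le_finrank_of_surjective (EH.res_surj ha))

variable (U X) in
/-- Invariant functions. -/
def IF : Submodule ℚ (X → ℚ) where
  carrier := {f | ∀ (g : U) x, f (g • x) = f x}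
  zero_mem' := fun _ _ => rfl
  add_mem' := fun a b g x => by simp only [Pi.add_apply, a g x, b g x]
  smul_mem' := fun c _ a g x => by simp only [Pi.smul_apply, a g x]

theorem IF.rank [Fintype ι] {a : ι → X} (h1 : Meets U a) (h2 : Ineq U a) :
    Module.Finite ℚ (IF U X) ∧ finrank ℚ (IF U X) = Fintype.card ι := by
  choose i g hg using h1
  have h3 : ∀ (k : U) x, i (k • x) = i x := fun k x =>
    h2 _ _ ((g x)⁻¹ * k⁻¹ * g (k • x)) (by rw [mul_smul, mul_smul, hg, inv_smul_smul,
      inv_smul_eq_iff, hg])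
  have e : IF U X ≃ₗ[ℚ] (ι → ℚ) :=
    { toFun := fun f j => f.1 (a j)
      map_add' := fun _ _ => rfl
      map_smul' := fun _ _ => rfl
      invFun := fun c => ⟨fun x => c (i x), fun k x => by simp only [h3]⟩
      left_inv := fun f => Subtype.ext (funext fun x => by
        show f.1 (a (i x)) = f.1 x
        rw [← f.2 (g x), hg])
      right_inv := fun c => funext fun j => by
        show c (i (a j)) = c j
        rw [h2 _ _ _ (hg (a j))] }
  exact ⟨Module.Finite.equiv e.symm, by rw [e.finrank_eq, finrank_fintype_fun_eq_card]⟩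

theorem basis_ind {A : Type} (b : FreeGroupBasis A U) (P : U → Prop) (h1 : P 1)
    (hb : ∀ i, P (b i)) (hi : ∀ g, P g → P g⁻¹) (hm : ∀ g h, P g → P h → P (g * h)) (g : U) :
    P g := by
  obtain ⟨w, rfl⟩ := b.repr.symm.surjective g
  induction w using FreeGroup.induction_on with
  | C1 => rwa [map_one]
  | of i => exact hb i
  | inv_of i h => rw [map_inv]; exact hi _ h
  | mul x y hx hy => rw [map_mul]; exact hm _ _ hx hy

theorem finite_of_ker {M N : Type} [AddCommGroup M] [Module ℚ M] [AddCommGroup N] [Module ℚ N]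
    [Module.Finite ℚ N] (f : M →ₗ[ℚ] N) (h : Module.Finite ℚ (LinearMap.ker f)) :
    Module.Finite ℚ M :=
  ⟨Submodule.fg_of_fg_map_of_fg_inf_ker f (IsNoetherian.noetherian _)
    (by rw [top_inf_eq]; exact Module.Finite.iff_fg.1 h)⟩

end Set

variable {U : Type} [Group U] {V Ed : Type} [MulAction U V] [MulAction U Ed] {o t : Ed → V}

/-- Cocycles of a free group lift from the edges to the vertices of a forest. -/
theorem lift_coc [IsFreeGroup U] (hG : Gr U o t) (hF : Forest o t) {Q : Type} [CommGroup Q]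
    (d : U → Ed → Q) (hd : Coc d) :
    ∃ c : U → V → Q, Coc c ∧ ∀ g e, c g (t e) = d g e * c g (o e) := by
  have b := IsFreeGroup.basis U
  choose f hf using fun i => hF Q (d (b i))
  let π : U →* Equiv.Perm (V × Q) := b.lift fun i =>
    { toFun := fun p => (b i • p.1, f i p.1 * p.2)
      invFun := fun p => ((b i)⁻¹ • p.1, (f i ((b i)⁻¹ • p.1))⁻¹ * p.2)
      left_inv := fun p => by simp
      right_inv := fun p => by simp }
  have h1 : ∀ g, ∃ c : V → Q, (∀ v q, π g (v, q) = (g • v, c v * q)) ∧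
      ∀ e, c (t e) = d g e * c (o e) := by
    refine basis_ind b _ ⟨fun _ => 1, fun v q => by simp, fun e => by simp [hd.one]⟩
      (fun i => ⟨f i, fun v q => by simp only [π, lift_basis]; rfl, hf i⟩) ?_ ?_
    · rintro g ⟨c, h1, h2⟩
      refine ⟨fun v => (c (g⁻¹ • v))⁻¹, fun v q => ?_, fun e => ?_⟩
      · rw [map_inv, Equiv.Perm.inv_eq_iff_eq, h1]
        simp
      · have h3 := hd.inv g (g⁻¹ • e)
        rw [smul_inv_smul] at h3
        simp only [← hG.o_smul, ← hG.t_smul, h2, h3, mul_inv]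
    · rintro g h ⟨c, h1, h2⟩ ⟨c', h1', h2'⟩
      refine ⟨fun v => c (h • v) * c' v, fun v q => ?_, fun e => ?_⟩
      · rw [map_mul, Equiv.Perm.mul_apply, h1', h1, mul_smul, mul_assoc]
      · simp only [← hG.o_smul, ← hG.t_smul, h2, h2', hd g h]
        exact mul_mul_mul_comm _ _ _ _
  choose c h1 h2 using h1
  refine ⟨c, fun g h v => ?_, h2⟩
  have h3 := h1 (g * h) v 1
  rw [map_mul, Equiv.Perm.mul_apply, h1, h1] at h3
  simpa using (congrArg Prod.snd h3).symm

open Classical in
/-- The difference of the values at the two ends. -/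
noncomputable def Gr.dif (hG : Gr U o t) : EH U V →ₗ[ℚ] EH U Ed where
  toFun l := ⟨fun e h => if h • e = e then l.1 (t e) h - l.1 (o e) h else 0, fun e g h hg hh => by
      have : (g * h) • e = e := by rw [mul_smul, hh, hg]
      simp only [this, hg, hh, if_true, l.2.1 _ g h (hG.fix_t hg) (hG.fix_t hh),
        l.2.1 _ g h (hG.fix_o hg) (hG.fix_o hh)]
      ring,
    fun e g h hh => by
      have : (g * h * g⁻¹) • g • e = g • e := by rw [mul_smul, inv_smul_smul, mul_smul, hh]
      simp only [this, hh, if_true, hG.o_smul, hG.t_smul, l.2.2.1 _ g h (hG.fix_t hh),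
        l.2.2.1 _ g h (hG.fix_o hh)],
    fun e h hh => if_neg hh⟩
  map_add' l m := Subtype.ext (funext fun e => funext fun h => by
    simp only [Submodule.coe_add, Pi.add_apply]
    split_ifs <;> ring)
  map_smul' c l := Subtype.ext (funext fun e => funext fun h => by
    simp only [Submodule.coe_smul, Pi.smul_apply, smul_eq_mul, RingHom.id_apply]
    split_ifs <;> ring)

/-- (X2) -/
theorem x2 [IsFreeGroup U] (hG : Gr U o t) (hF : Forest o t) : Function.Surjective hG.dif := by
  classical
  intro m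
  obtain ⟨d, hd, h1⟩ := EH.coc m
  obtain ⟨c, hc, h2⟩ := lift_coc hG hF d hd
  refine ⟨⟨_, hc.eh⟩, Subtype.ext (funext fun e => funext fun h => ?_)⟩
  by_cases hh : h • e = e
  · simp only [Gr.dif, LinearMap.coe_mk, AddHom.coe_mk, hh, hG.fix_o hh, hG.fix_t hh, if_true, h2,
      toAdd_mul, h1 h e hh, add_sub_cancel_right]
  · simp only [Gr.dif, LinearMap.coe_mk, AddHom.coe_mk, hh, if_false, m.2.2.2 e h hh]

/-- (X2) as an inequality. -/
theorem x2_le [IsFreeGroup U] (hG : Gr U o t) (hF : Forest o t) {ι κ : Type} [Fintype ι]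
    [Fintype κ] {a : ι → V} {b : κ → Ed} (ha : Meets U a) (hb : Ineq U b)
    (h : ∀ i, FinRk (stabilizer U (a i))) : (∀ e : Ed, FinRk (stabilizer U e)) ∧
      ∑ k, rk (stabilizer U (b k)) ≤ ∑ i, rk (stabilizer U (a i)) := by
  have := EH.finite ha h
  have := Module.Finite.of_surjective _ (x2 hG hF)
  exact ⟨EH.finRk, (EH.ge hb).trans
    ((LinearMap.finrank_le_finrank_of_surjective (x2 hG hF)).trans (EH.le ha h))⟩

open Classical in
variable (U V) in
/-- Restriction of homomorphisms to the stabilisers. -/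
noncomputable def resH : Hm U →ₗ[ℚ] EH U V where
  toFun φ := ⟨_, Coc.eh (c := fun g _ => Multiplicative.ofAdd (φ (Additive.ofMul g)))
    fun g h _ => by simp only [φ.mul, ofAdd_add]⟩
  map_add' l m := Subtype.ext (funext fun e => funext fun h => by
    simp only [Submodule.coe_add, Pi.add_apply, AddMonoidHom.add_apply, toAdd_ofAdd]
    split_ifs <;> ring)
  map_smul' c l := Subtype.ext (funext fun e => funext fun h => by
    simp only [Submodule.coe_smul, Pi.smul_apply, smul_eq_mul, RingHom.id_apply,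
      AddMonoidHom.smul_apply, toAdd_ofAdd]
    split_ifs <;> ring)

theorem resH_apply (φ : Hm U) {v : V} {h : U} (hh : h • v = v) :
    (resH U V φ).1 v h = φ (Additive.ofMul h) := if_pos hh

theorem range_resH (hG : Gr U o t) (hF : Forest o t) (hC : Conn o t) :
    LinearMap.range (resH U V) = LinearMap.ker hG.dif := by
  classical
  ext l
  constructor
  · rintro ⟨φ, rfl⟩
    refine Subtype.ext (funext fun e => funext fun h => ?_)
    show (if h • e = e then _ else (0 : ℚ)) = 0
    split_ifs with hh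
    · rw [resH_apply φ (hG.fix_o hh), resH_apply φ (hG.fix_t hh), sub_self]
    · rfl
  · intro hl
    obtain ⟨φ, h1, h2⟩ := x1 hG hF hC l.1 l.2.1 l.2.2.1 fun e h hh => by
      have h3 : (if h • e = e then l.1 (t e) h - l.1 (o e) h else 0) = 0 :=
        congrFun (congrFun (congrArg Subtype.val hl) e) h
      rw [if_pos hh, sub_eq_zero] at h3
      exact h3.symm
    refine ⟨mkHm φ h1, Subtype.ext (funext fun v => funext fun h => ?_)⟩
    by_cases hh : h • v = v
    · rw [resH_apply _ hh, mkHm_apply, h2 v h hh]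
    · rw [l.2.2.2 v h hh]
      exact if_neg hh

/-- The first Betti number of the quotient graph. -/
theorem rank_ker (hG : Gr U o t) (hF : Forest o t) (hC : Conn o t) {ι κ : Type} [Fintype ι]
    [Fintype κ] {a : ι → V} {b : κ → Ed} (a1 : Meets U a) (a2 : Ineq U a) (b1 : Meets U b)
    (b2 : Ineq U b) :
    Fintype.card κ + 1 = Fintype.card ι + finrank ℚ (LinearMap.ker (resH U V)) := by
  obtain ⟨v₀⟩ := hC.1
  let δ : (V → ℚ) →ₗ[ℚ] (Ed → ℚ) := LinearMap.funLeft ℚ ℚ t - LinearMap.funLeft ℚ ℚ o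
  let P : Submodule ℚ (V → ℚ) := (IF U Ed).comap δ
  have hP : ∀ f : P, ∀ (g : U) (u v : V), f.1 (g • u) - f.1 u = f.1 (g • v) - f.1 v :=
    fun f g => hC.const (fun v => f.1 (g • v) - f.1 v) fun e => by
      have h : f.1 (t (g • e)) - f.1 (o (g • e)) = f.1 (t e) - f.1 (o e) := f.2 g e
      rw [hG.o_smul, hG.t_smul] at h
      linarith
  let α : P →ₗ[ℚ] IF U Ed × ℚ :=
    (δ.restrict fun f hf => hf).prod ((LinearMap.proj v₀).comp P.subtype)
  have hα : Function.Bijective α := by
    refine ⟨(injective_iff_map_eq_zero _).2 fun f hf => Subtype.ext (funext fun v => ?_),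
      fun ⟨ω, q⟩ => ?_⟩
    · have h1 : f.1 v₀ = 0 := congrArg Prod.snd hf
      rw [hC.const f.1 (fun e => ?_) v v₀, h1]
      · rfl
      · have h2 : f.1 (t e) - f.1 (o e) = 0 :=
          congrFun (congrArg (fun p : IF U Ed × ℚ => p.1.1) hf) e
        linarith
    · obtain ⟨φ, f, -, h2, -⟩ := x4 hG hF hC ω.1 ω.2
      have h3 : δ (fun v => f v - f v₀ + q) = ω.1 := funext fun e => by
        show f (t e) - f v₀ + q - (f (o e) - f v₀ + q) = _
        rw [← h2]
        ring
      refine ⟨⟨fun v => f v - f v₀ + q, by rw [Submodule.mem_comap, h3]; exact ω.2⟩,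
        Prod.ext (Subtype.ext h3) ?_⟩
      show f v₀ - f v₀ + q = q
      ring
  obtain ⟨f1, r1⟩ := IF.rank a1 a2
  obtain ⟨f2, r2⟩ := IF.rank b1 b2
  have e := LinearEquiv.ofBijective α hα
  have := Module.Finite.equiv e.symm
  have r3 : finrank ℚ P = Fintype.card κ + 1 := by
    rw [e.finrank_eq, finrank_prod, r2, finrank_self]
  let γ : P →ₗ[ℚ] Hm U :=
    { toFun := fun f => mkHm (fun g => f.1 (g • v₀) - f.1 v₀) fun g h => by
        rw [hP f g v₀ (h • v₀), mul_smul]
        ring
      map_add' := fun f f' => Hm.ext' fun g => by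
        simp only [mkHm_apply, Submodule.coe_add, Pi.add_apply, AddMonoidHom.add_apply]
        ring
      map_smul' := fun c f => Hm.ext' fun g => by
        simp only [mkHm_apply, Submodule.coe_smul, Pi.smul_apply, smul_eq_mul, RingHom.id_apply,
          AddMonoidHom.smul_apply]
        ring }
  have hγ : ∀ f g, γ f (Additive.ofMul g) = f.1 (g • v₀) - f.1 v₀ := fun _ _ => rfl
  have k1 : (LinearMap.ker γ).map P.subtype = IF U V := by
    ext f
    constructor
    · rintro ⟨f, hf, rfl⟩ g v
      have h : γ f (Additive.ofMul g) = 0 := by rw [LinearMap.mem_ker.1 hf]; rfl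
      rw [hγ, hP f g v₀ v, sub_eq_zero] at h
      exact h
    · intro hf
      refine ⟨⟨f, fun g e => ?_⟩, Hm.ext' fun g => ?_, rfl⟩
      · show f (t (g • e)) - f (o (g • e)) = f (t e) - f (o e)
        rw [hG.o_smul, hG.t_smul, hf, hf]
      · rw [hγ]
        exact sub_eq_zero.2 (hf g v₀)
  have k2 : LinearMap.range γ = LinearMap.ker (resH U V) := by
    ext φ
    constructor
    · rintro ⟨f, rfl⟩
      refine Subtype.ext (funext fun v => funext fun h => ?_)
      by_cases hh : h • v = v
      · rw [resH_apply _ hh, hγ, hP f h v₀ v, hh, sub_self]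
        rfl
      · exact (resH U V (γ f)).2.2.2 v h hh
    · intro hφ
      obtain ⟨ρ, s, hs, hρ, -⟩ := exists_rep (E := U) (∅ : Set V) (fun r hr => hr.elim)
      have h1 : ∀ (g : U) v, φ (Additive.ofMul (s (g • v))) =
          φ (Additive.ofMul g) + φ (Additive.ofMul (s v)) := fun g v => by
        have h2 : ((s (g • v))⁻¹ * g * s v) • ρ v = ρ v := by
          rw [mul_smul, mul_smul, hs, inv_smul_eq_iff, ← hρ g v, hs]
        have h3 := resH_apply φ h2
        rw [LinearMap.mem_ker.1 hφ, φ.mul, φ.mul, φ.inv] at h3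
        have h4 : (0 : ℚ) = _ := h3
        linarith
      refine ⟨⟨fun v => φ (Additive.ofMul (s v)), fun g e => ?_⟩, Hm.ext' fun g => ?_⟩
      · show φ (Additive.ofMul (s (t (g • e)))) - φ (Additive.ofMul (s (o (g • e)))) =
          φ (Additive.ofMul (s (t e))) - φ (Additive.ofMul (s (o e)))
        rw [hG.o_smul, hG.t_smul, h1, h1]
        ring
      · rw [hγ]
        simp only [h1]
        ring
  rw [← r3, ← r1, ← k1, ← k2, Submodule.finrank_map_subtype_eq, add_comm,
    LinearMap.finrank_range_add_finrank_ker]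

/-- The vertex groups have finite rank when the edge groups have. -/
theorem finite_EH (hU : FinRk U) (hG : Gr U o t) (hF : Forest o t) (hC : Conn o t) {κ : Type}
    [Finite κ] {b : κ → Ed} (b1 : Meets U b) (hb : ∀ k, FinRk (stabilizer U (b k))) :
    Module.Finite ℚ (EH U V) := by
  have := EH.finite b1 hb
  have : Module.Finite ℚ (Hm U) := hU
  exact finite_of_ker hG.dif (by rw [← range_resH hG hF hC]; infer_instance)

/-- (X3) when the difference map is onto. -/
theorem x3_of (hU : FinRk U) (hG : Gr U o t) (hF : Forest o t) (hC : Conn o t) {ι κ : Type}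
    [Fintype ι] [Fintype κ] {a : ι → V} {b : κ → Ed} (a1 : Meets U a) (a2 : Ineq U a)
    (b1 : Meets U b) (b2 : Ineq U b) (hb : ∀ k, FinRk (stabilizer U (b k)))
    (hs : Function.Surjective hG.dif) : (∀ v : V, FinRk (stabilizer U v)) ∧
      ∑ i, rk (stabilizer U (a i)) + Fintype.card κ + 1 =
        Fintype.card ι + rk U + ∑ k, rk (stabilizer U (b k)) := by
  have := finite_EH hU hG hF hC b1 hb
  have := EH.finite b1 hb
  have : Module.Finite ℚ (Hm U) := hU
  refine ⟨EH.finRk, ?_⟩
  have h1 := rank_ker hG hF hC a1 a2 b1 b2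
  have h2 := (resH U V).finrank_range_add_finrank_ker
  have h3 := hG.dif.finrank_range_add_finrank_ker
  rw [LinearMap.range_eq_top.2 hs, finrank_top, ← range_resH hG hF hC] at h3
  have h4 := le_antisymm (EH.ge a2) (EH.le a1 fun _ => EH.finRk _)
  have h5 := le_antisymm (EH.ge b2) (EH.le b1 hb)
  unfold rk at *
  omega

/-- (X3) for free groups. -/
theorem x3 [IsFreeGroup U] (hU : FinRk U) (hG : Gr U o t) (hF : Forest o t) (hC : Conn o t)
    {ι κ : Type} [Fintype ι] [Fintype κ] {a : ι → V} {b : κ → Ed} (a1 : Meets U a)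
    (a2 : Ineq U a) (b1 : Meets U b) (b2 : Ineq U b) (hb : ∀ k, FinRk (stabilizer U (b k))) :
    (∀ v : V, FinRk (stabilizer U v)) ∧ ∑ i, rk (stabilizer U (a i)) + Fintype.card κ + 1 =
      Fintype.card ι + rk U + ∑ k, rk (stabilizer U (b k)) :=
  x3_of hU hG hF hC a1 a2 b1 b2 hb (x2 hG hF)

/-- (X3) for trivial edge groups. -/
theorem x3_te (hU : FinRk U) (hG : Gr U o t) (hF : Forest o t) (hC : Conn o t)
    {ι κ : Type} [Fintype ι] [Fintype κ] {a : ι → V} {b : κ → Ed} (a1 : Meets U a)
    (a2 : Ineq U a) (b1 : Meets U b) (b2 : Ineq U b) (hb : ∀ (g : U) (e : Ed), g • e = e → g = 1) :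
    (∀ v : V, FinRk (stabilizer U v)) ∧
      ∑ i, rk (stabilizer U (a i)) + Fintype.card κ + 1 = Fintype.card ι + rk U := by
  have h0 : ∀ e : Ed, FinRk (stabilizer U e) ∧ rk (stabilizer U e) = 0 := fun e =>
    rk_bot _ (eq_bot_iff.2 fun g hg => hb g e hg)
  have h := x3_of hU hG hF hC a1 a2 b1 b2 (fun k => (h0 _).1) fun m => ⟨0, by
    rw [map_zero]
    refine Subtype.ext (funext fun e => funext fun g => ?_)
    by_cases hg : g • e = e
    · obtain rfl := hb g e hg
      have h1 := m.2.1 e 1 1 hg hg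
      rw [one_mul] at h1
      exact (left_eq_add.1 h1).symm
    · exact (m.2.2.2 e g hg).symm⟩
  simpa only [(h0 _).2, Finset.sum_const_zero, add_zero] using h

end Pool.Agent.MP_3ce0a0_al.Q2T3
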